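import Mathlib

set_option autoImplicit false

open Finset

namespace Pool.Agent.Lib.MP_cb200a_pr.Jk

/-- A finite Markov chain given by moves, with a positive stationary weight. -/
structure Chain (X κ : Type) [Fintype X] [Fintype κ] where
  π : X → ℝ
  ρ : X → κ → ℝ
  mv : X → κ → X
  pos : ∀ x, 0 < π x
  nn : ∀ x k, 0 ≤ ρ x k
  one : ∀ x, ∑ k, ρ x k = 1
  stat : ∀ F : X → ℝ, ∑ x, π x * ∑ k, ρ x k * F (mv x k) = ∑ x, π x * F x
  irr : ∀ F : X → ℝ, (∀ x k, 0 < ρ x k → F (mv x k) = F x) → ∀ x y, F x = F y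

namespace Chain

variable {X κ : Type} [Fintype X] [Fintype κ] (C : Chain X κ)

/-- The lazy averaging operator. -/
noncomputable def P (F : X → ℝ) (x : X) : ℝ := ∑ k, C.ρ x k * ((F x + F (C.mv x k)) / 2)

theorem P_eq (F : X → ℝ) (x : X) : C.P F x = (F x + ∑ k, C.ρ x k * F (C.mv x k)) / 2 := by
  unfold P
  have : ∀ k, C.ρ x k * ((F x + F (C.mv x k)) / 2) =
      (C.ρ x k * F x + C.ρ x k * F (C.mv x k)) / 2 := fun k => by ring
  simp_rw [this]
  rw [← Finset.sum_div, Finset.sum_add_distrib, ← Finset.sum_mul, C.one, one_mul]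

theorem mean_P (F : X → ℝ) : ∑ x, C.π x * C.P F x = ∑ x, C.π x * F x := by
  have : ∀ x, C.π x * C.P F x =
      (C.π x * F x + C.π x * ∑ k, C.ρ x k * F (C.mv x k)) / 2 := fun x => by
    rw [P_eq]; ring
  simp_rw [this]
  rw [← Finset.sum_div, Finset.sum_add_distrib, C.stat]; ring

theorem P_le (F : X → ℝ) (B : ℝ) (h : ∀ x, F x ≤ B) (x : X) : C.P F x ≤ B := by
  unfold P
  calc ∑ k, C.ρ x k * ((F x + F (C.mv x k)) / 2) ≤ ∑ k, C.ρ x k * B :=
        Finset.sum_le_sum fun k _ => mul_le_mul_of_nonneg_left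
          (by linarith [h x, h (C.mv x k)]) (C.nn x k)
    _ = B := by rw [← Finset.sum_mul, C.one, one_mul]

theorem le_P (F : X → ℝ) (B : ℝ) (h : ∀ x, B ≤ F x) (x : X) : B ≤ C.P F x := by
  unfold P
  calc B = ∑ k, C.ρ x k * B := by rw [← Finset.sum_mul, C.one, one_mul]
    _ ≤ ∑ k, C.ρ x k * ((F x + F (C.mv x k)) / 2) :=
        Finset.sum_le_sum fun k _ => mul_le_mul_of_nonneg_left
          (by linarith [h x, h (C.mv x k)]) (C.nn x k)

theorem energy (F : X → ℝ) :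
    ∑ x, C.π x * C.P F x ^ 2 + ∑ x, C.π x * ∑ k, C.ρ x k * ((F x - F (C.mv x k)) ^ 2 / 4) ≤
      ∑ x, C.π x * F x ^ 2 := by
  have h1 : ∀ x, C.P F x ^ 2 + ∑ k, C.ρ x k * ((F x - F (C.mv x k)) ^ 2 / 4) ≤
      C.P (fun y => F y ^ 2) x := by
    intro x
    have h2 : 0 ≤ ∑ k, C.ρ x k * ((F x + F (C.mv x k)) / 2 - C.P F x) ^ 2 :=
      Finset.sum_nonneg fun k _ => mul_nonneg (C.nn x k) (sq_nonneg _)
    have h3 : ∀ k, C.ρ x k * ((F x + F (C.mv x k)) / 2 - C.P F x) ^ 2 =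
        C.ρ x k * ((F x ^ 2 + F (C.mv x k) ^ 2) / 2) -
          C.ρ x k * ((F x - F (C.mv x k)) ^ 2 / 4) -
          2 * C.P F x * (C.ρ x k * ((F x + F (C.mv x k)) / 2)) + C.P F x ^ 2 * C.ρ x k :=
      fun k => by ring
    simp_rw [h3] at h2
    rw [Finset.sum_add_distrib, Finset.sum_sub_distrib, Finset.sum_sub_distrib,
      ← Finset.mul_sum, ← Finset.mul_sum, C.one] at h2
    have h4 : ∑ k, C.ρ x k * ((F x + F (C.mv x k)) / 2) = C.P F x := rfl
    have h5 : ∑ k, C.ρ x k * ((F x ^ 2 + F (C.mv x k) ^ 2) / 2) = C.P (fun y => F y ^ 2) x := rfl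
    rw [h4, h5] at h2
    nlinarith
  rw [← C.mean_P (fun y => F y ^ 2), ← Finset.sum_add_distrib]
  refine Finset.sum_le_sum fun x _ => ?_
  rw [← mul_add]
  exact mul_le_mul_of_nonneg_left (h1 x) (C.pos x).le

theorem drop_nonneg (F : X → ℝ) :
    0 ≤ ∑ x, C.π x * ∑ k, C.ρ x k * ((F x - F (C.mv x k)) ^ 2 / 4) :=
  Finset.sum_nonneg fun x _ => mul_nonneg (C.pos x).le
    (Finset.sum_nonneg fun k _ => mul_nonneg (C.nn x k) (by positivity))

theorem const_of_drop (F : X → ℝ)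
    (h : ∑ x, C.π x * ∑ k, C.ρ x k * ((F x - F (C.mv x k)) ^ 2 / 4) ≤ 0) (x y : X) :
    F x = F y := by
  refine C.irr F (fun x k hk => ?_) x y
  have h0 := le_antisymm h (C.drop_nonneg F)
  rw [Finset.sum_eq_zero_iff_of_nonneg (fun x _ => mul_nonneg (C.pos x).le
    (Finset.sum_nonneg fun k _ => mul_nonneg (C.nn x k) (by positivity)))] at h0
  have h1 := (mul_eq_zero.1 (h0 x (mem_univ x))).resolve_left (C.pos x).ne'
  rw [Finset.sum_eq_zero_iff_of_nonneg (fun k _ => mul_nonneg (C.nn x k) (by positivity))] at h1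
  have h2 := (mul_eq_zero.1 (h1 k (mem_univ k))).resolve_left hk.ne'
  have h3 : (F x - F (C.mv x k)) ^ 2 = 0 := by linarith
  have h4 := pow_eq_zero_iff (two_ne_zero) |>.1 h3
  linarith

end Chain

theorem couple {X X' κ κ' : Type} [Fintype X] [Fintype X'] [Fintype κ] [Fintype κ']
    (C : Chain X κ) (C' : Chain X' κ') (R : X → X' → Prop) (hR : ∃ x x', R x x')
    (mono : ∀ (F : X → ℝ) (F' : X' → ℝ), (∀ x x', R x x' → F x ≤ F' x') →
      ∀ x x', R x x' → C.P F x ≤ C'.P F' x')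
    (F : X → ℝ) (F' : X' → ℝ) (h : ∀ x x', R x x' → F x ≤ F' x') :
    (∑ x, C.π x * F x) * ∑ x', C'.π x' ≤ (∑ x', C'.π x' * F' x') * ∑ x, C.π x := by
  obtain ⟨B, hB⟩ : ∃ B : ℝ, (∀ x, |F x| ≤ B) ∧ ∀ x', |F' x'| ≤ B := by
    refine ⟨∑ x, |F x| + ∑ x', |F' x'|, fun x => ?_, fun x' => ?_⟩
    · have := Finset.single_le_sum (f := fun x => |F x|) (fun _ _ => abs_nonneg _) (mem_univ x)
      have : 0 ≤ ∑ x', |F' x'| := Finset.sum_nonneg fun _ _ => abs_nonneg _
      linarith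
    · have := Finset.single_le_sum (f := fun x => |F' x|) (fun _ _ => abs_nonneg _) (mem_univ x')
      have : 0 ≤ ∑ x, |F x| := Finset.sum_nonneg fun _ _ => abs_nonneg _
      linarith
  let K : Set ((X → ℝ) × (X' → ℝ)) := {p | (∀ x x', R x x' → p.1 x ≤ p.2 x') ∧
    ∑ x, C.π x * p.1 x = ∑ x, C.π x * F x ∧ ∑ x', C'.π x' * p.2 x' = ∑ x', C'.π x' * F' x' ∧
    (∀ x, -B ≤ p.1 x) ∧ (∀ x, p.1 x ≤ B) ∧ (∀ x, -B ≤ p.2 x) ∧ (∀ x, p.2 x ≤ B)}
  have hc : IsClosed K := by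
    simp only [K, Set.ofPred_and, Set.ofPred_forall]
    refine IsClosed.inter (isClosed_iInter fun x => isClosed_iInter fun x' =>
      isClosed_iInter fun _ => isClosed_le (by fun_prop) (by fun_prop)) ?_
    refine IsClosed.inter (isClosed_eq (by fun_prop) (by fun_prop)) ?_
    refine IsClosed.inter (isClosed_eq (by fun_prop) (by fun_prop)) ?_
    refine IsClosed.inter (isClosed_iInter fun x => isClosed_le (by fun_prop) (by fun_prop)) ?_
    refine IsClosed.inter (isClosed_iInter fun x => isClosed_le (by fun_prop) (by fun_prop)) ?_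
    refine IsClosed.inter (isClosed_iInter fun x => isClosed_le (by fun_prop) (by fun_prop)) ?_
    exact isClosed_iInter fun x => isClosed_le (by fun_prop) (by fun_prop)
  have hK : IsCompact K := by
    refine IsCompact.of_isClosed_subset
      (isCompact_Icc (a := ((fun _ => -B, fun _ => -B) : (X → ℝ) × (X' → ℝ)))
        (b := (fun _ => B, fun _ => B))) hc ?_
    rintro p ⟨-, -, -, h1, h2, h3, h4⟩
    exact ⟨⟨h1, h3⟩, ⟨h2, h4⟩⟩
  have hne : K.Nonempty := ⟨(F, F'), h, rfl, rfl, fun x => (abs_le.1 (hB.1 x)).1,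
    fun x => (abs_le.1 (hB.1 x)).2, fun x => (abs_le.1 (hB.2 x)).1, fun x => (abs_le.1 (hB.2 x)).2⟩
  obtain ⟨p, hp, hmin⟩ := hK.exists_isMinOn hne
    (f := fun p => ∑ x, C.π x * p.1 x ^ 2 + ∑ x', C'.π x' * p.2 x' ^ 2)
    (Continuous.continuousOn (by fun_prop))
  obtain ⟨p1, p2, p3, p4, p5, p6, p7⟩ := hp
  have hT : (C.P p.1, C'.P p.2) ∈ K :=
    ⟨mono _ _ p1, (C.mean_P _).trans p2, (C'.mean_P _).trans p3, C.le_P _ _ p4, C.P_le _ _ p5,
      C'.le_P _ _ p6, C'.P_le _ _ p7⟩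
  have h1 : ∑ x, C.π x * p.1 x ^ 2 + ∑ x', C'.π x' * p.2 x' ^ 2 ≤
    ∑ x, C.π x * C.P p.1 x ^ 2 + ∑ x', C'.π x' * C'.P p.2 x' ^ 2 := hmin hT
  have e1 := C.energy p.1
  have e2 := C'.energy p.2
  have d1 := C.drop_nonneg p.1
  have d2 := C'.drop_nonneg p.2
  have c1 := C.const_of_drop p.1 (by linarith)
  have c2 := C'.const_of_drop p.2 (by linarith)
  obtain ⟨x0, x0', h0⟩ := hR
  have h2 := p1 x0 x0' h0
  have s1 : ∑ x, C.π x * F x = (∑ x, C.π x) * p.1 x0 := by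
    rw [← p2, Finset.sum_mul]; exact Finset.sum_congr rfl fun x _ => by rw [c1 x x0]
  have s2 : ∑ x', C'.π x' * F' x' = (∑ x', C'.π x') * p.2 x0' := by
    rw [← p3, Finset.sum_mul]; exact Finset.sum_congr rfl fun x _ => by rw [c2 x x0']
  have n1 : 0 ≤ ∑ x, C.π x := Finset.sum_nonneg fun x _ => (C.pos x).le
  have n2 : 0 ≤ ∑ x, C'.π x := Finset.sum_nonneg fun x _ => (C'.pos x).le
  rw [s1, s2]
  nlinarith [mul_le_mul_of_nonneg_left h2 (mul_nonneg n1 n2)]

/-- A coupling of two weight vectors that differ in a monotone way off one index. -/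
theorem exists_coupling {ι : Type} [Fintype ι] [DecidableEq ι] (a a' : ι → ℝ) (k : ι)
    (h0 : ∀ i, 0 ≤ a i) (h0' : ∀ i, 0 ≤ a' i) (hle : ∀ i, i ≠ k → a' i ≤ a i)
    (hs : ∑ i, a i = ∑ i, a' i) :
    ∃ α : ι → ι → ℝ, (∀ i i', 0 ≤ α i i') ∧ (∀ i, ∑ i', α i i' = a i) ∧
      (∀ i', ∑ i, α i i' = a' i') ∧ ∀ i i', α i i' ≠ 0 → i' = i ∨ i' = k := by
  refine ⟨fun i i' => (if i' = i then (if i = k then 0 else a' i) else 0) +
    (if i' = k then (if i = k then a i else a i - a' i) else 0), fun i i' => ?_, fun i => ?_,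
    fun i' => ?_, fun i i' h => ?_⟩
  · have := h0 i
    have := h0' i
    have := hle i
    dsimp only
    split_ifs <;> simp_all
  · rw [Finset.sum_add_distrib, Finset.sum_ite_eq' univ i, Finset.sum_ite_eq' univ k]
    by_cases h : i = k <;> simp [h]
  · rw [Finset.sum_add_distrib, Finset.sum_ite_eq univ i']
    by_cases h : i' = k
    · subst h
      have e : ∀ i, (if i = i' then a i else a i - a' i) =
          (a i - a' i) + (if i = i' then a' i else 0) := fun i => by split_ifs <;> ring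
      simp only [mem_univ, if_true, zero_add, e]
      rw [Finset.sum_add_distrib, Finset.sum_sub_distrib, hs, Finset.sum_ite_eq' univ i']
      simp
    · simp [h]
  · by_contra hc
    push Not at hc
    simp [hc.1, hc.2] at h

theorem single_le {ι : Type} [Fintype ι] [DecidableEq ι] (a a' : ι → ℝ) (k : ι)
    (ha : ∀ i, 0 ≤ a i) (ha' : ∀ i, 0 ≤ a' i) (hle : ∀ i, i ≠ k → a' i ≤ a i)
    (hs : ∑ i, a i = ∑ i, a' i) (A A' : ι → ℝ)
    (h : ∀ i i', (i' = i ∨ i' = k) → a i ≠ 0 → a' i' ≠ 0 → A i ≤ A' i') :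
    ∑ i, a i * A i ≤ ∑ i, a' i * A' i := by
  obtain ⟨α, α0, α1, α2, α3⟩ := exists_coupling a a' k ha ha' hle hs
  simp_rw [← α1, ← α2, Finset.sum_mul]
  rw [Finset.sum_comm (f := fun i' i => α i i' * A' i')]
  refine Finset.sum_le_sum fun i _ => Finset.sum_le_sum fun i' _ => ?_
  by_cases h1 : α i i' = 0
  · simp [h1]
  have p1 := lt_of_le_of_ne (α0 i i') (Ne.symm h1)
  refine mul_le_mul_of_nonneg_left (h i i' (α3 i i' h1) ?_ ?_) (α0 _ _)
  · have := Finset.single_le_sum (f := fun i' => α i i') (fun _ _ => α0 _ _) (mem_univ i')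
    rw [α1] at this; linarith
  · have := Finset.single_le_sum (f := fun i => α i i') (fun _ _ => α0 _ _) (mem_univ i)
    rw [α2] at this; linarith

theorem single_le' {ι : Type} [Fintype ι] [DecidableEq ι] (b b' : ι → ℝ) (k : ι)
    (hb : ∀ i, 0 ≤ b i) (hb' : ∀ i, 0 ≤ b' i) (hle : ∀ i, i ≠ k → b i ≤ b' i)
    (hs : ∑ i, b i = ∑ i, b' i) (A A' : ι → ℝ)
    (h : ∀ j j', (j = j' ∨ j = k) → b j ≠ 0 → b' j' ≠ 0 → A j ≤ A' j') :
    ∑ i, b i * A i ≤ ∑ i, b' i * A' i := by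
  have := single_le b' b k hb' hb hle hs.symm (fun j => -A' j) (fun j => -A j)
    (fun j' j c n1 n2 => neg_le_neg (h j j' c n2 n1))
  simp only [mul_neg, Finset.sum_neg_distrib] at this
  linarith

open Polynomial in
theorem harm {ι : Type} [Fintype ι] [DecidableEq ι] (v : ι → ℝ) (hv : Function.Injective v)
    (ε : ℝ) (hε : ε ≠ 0) :
    ∑ i, ∏ l ∈ univ.erase i, ((v i + ε - v l) / (v i - v l)) = Fintype.card ι := by
  rcases isEmpty_or_nonempty ι with hι | hι
  · simp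
  have hc : 0 < #(univ : Finset ι) := Finset.card_pos.2 univ_nonempty
  have m1 : (∏ l : ι, (X - C (v l - ε))).Monic := monic_prod_X_sub_C _ _
  have m2 : (∏ l : ι, (X - C (v l))).Monic := monic_prod_X_sub_C _ _
  have d1 : (∏ l : ι, (X - C (v l - ε))).degree = ((#(univ : Finset ι) : ℕ) : WithBot ℕ) := by
    rw [degree_prod]; simp only [degree_X_sub_C]; simp
  have d2 : (∏ l : ι, (X - C (v l))).degree = ((#(univ : Finset ι) : ℕ) : WithBot ℕ) := by
    rw [degree_prod]; simp only [degree_X_sub_C]; simp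
  have hd : ((∏ l : ι, (X - C (v l - ε))) - ∏ l : ι, (X - C (v l))).degree <
      ((#(univ : Finset ι) : ℕ) : WithBot ℕ) := by
    rw [← d1]
    exact degree_sub_lt_left (d1.trans d2.symm) m1.ne_zero (m1.leadingCoeff.trans m2.leadingCoeff.symm)
  have key := Lagrange.coeff_eq_sum (s := univ) (v := v) hv.injOn hd
  rw [coeff_sub, prod_X_sub_C_coeff_card_pred _ _ hc, prod_X_sub_C_coeff_card_pred _ _ hc] at key
  have e : ∀ i, eval (v i) ((∏ l : ι, (X - C (v l - ε))) - ∏ l : ι, (X - C (v l))) /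
      ∏ j ∈ univ.erase i, (v i - v j) =
      ε * ∏ l ∈ univ.erase i, ((v i + ε - v l) / (v i - v l)) := by
    intro i
    rw [eval_sub, eval_prod, eval_prod,
      Finset.prod_eq_zero (f := fun l => eval (v i) (X - C (v l))) (mem_univ i) (by simp),
      ← Finset.mul_prod_erase univ _ (mem_univ i), Finset.prod_div_distrib, sub_zero]
    simp only [eval_sub, eval_X, eval_C]
    rw [mul_div_assoc]
    congr 1
    · ring
    · congr 1
      exact Finset.prod_congr rfl fun l _ => by ring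
  simp_rw [e] at key
  rw [← Finset.mul_sum, Finset.sum_sub_distrib] at key
  simp only [Finset.sum_const, card_univ, nsmul_eq_mul] at key
  apply mul_left_cancel₀ hε
  linarith

theorem cheb (I : Finset ℤ) (p q a c : ℤ → ℝ) (hp : ∀ s ∈ I, 0 ≤ p s) (hq : ∀ s ∈ I, 0 ≤ q s)
    (ha : ∀ s ∈ I, 0 ≤ a s) (hc : ∀ s ∈ I, q s = 0 → c s = 0)
    (mlr : ∀ s ∈ I, ∀ t ∈ I, s ≤ t → p t * q s ≤ p s * q t)
    (cross : ∀ s ∈ I, ∀ t ∈ I, s ≤ t → c t * p s ≤ a s * q t) :
    (∑ s ∈ I, c s) * ∑ s ∈ I, p s ≤ (∑ s ∈ I, a s) * ∑ s ∈ I, q s := by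
  have pair : ∀ s ∈ I, ∀ t ∈ I, s ≤ t →
      0 ≤ (a s * q t - c t * p s) + (a t * q s - c s * p t) := by
    intro s hs t ht hst
    have x0 := cross s hs t ht hst
    have x1 := cross s hs s hs le_rfl
    have x2 := cross t ht t ht le_rfl
    have m := mlr s hs t ht hst
    rcases (hq s hs).eq_or_lt with h | h
    · rw [hc s hs h.symm, ← h]; linarith
    rcases (hp t ht).eq_or_lt with h' | h'
    · rw [← h']; nlinarith [mul_nonneg (ha t ht) (hq s hs)]
    have hpq : 0 < p s * q t := lt_of_lt_of_le (mul_pos h' h) m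
    refine le_of_mul_le_mul_left ?_ hpq
    have y1 := mul_le_mul_of_nonneg_left x1 (mul_nonneg (hp t ht) (hq t ht))
    have y2 := mul_le_mul_of_nonneg_left x2 (mul_nonneg (hp s hs) (hq s hs))
    have y3 := mul_le_mul_of_nonneg_right m (sub_nonneg.2 x0)
    nlinarith
  have tot : 0 ≤ ∑ s ∈ I, ∑ t ∈ I, ((a s * q t - c t * p s) + (a t * q s - c s * p t)) := by
    refine Finset.sum_nonneg fun s hs => Finset.sum_nonneg fun t ht => ?_
    rcases le_total s t with h | h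
    · exact pair s hs t ht h
    · have := pair t ht s hs h
      linarith
  simp_rw [Finset.sum_add_distrib, Finset.sum_sub_distrib, ← Finset.mul_sum, ← Finset.sum_mul]
    at tot
  rw [← Finset.mul_sum, ← Finset.mul_sum] at tot
  linarith

theorem chain_ratio (x y : ℤ → ℝ) (s t : ℤ) (hst : s ≤ t) (hy : ∀ r, s ≤ r → r ≤ t → 0 < y r)
    (h : ∀ r, s ≤ r → r + 1 ≤ t → x (r + 1) * y r ≤ x r * y (r + 1)) :
    x t * y s ≤ x s * y t := by
  induction t, hst using Int.leInduction with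
  | base => exact le_rfl
  | succ t ht ih =>
    have i1 := ih (fun r h1 h2 => hy r h1 (by omega)) (fun r h1 h2 => h r h1 (by omega))
    have i2 := h t ht le_rfl
    have p1 := hy t ht (by omega)
    have p2 := hy s le_rfl (by omega)
    have p3 := hy (t + 1) (by omega) le_rfl
    refine le_of_mul_le_mul_left ?_ p1
    nlinarith [mul_le_mul_of_nonneg_left i1 p3.le, mul_le_mul_of_nonneg_left i2 p2.le]

end Pool.Agent.Lib.MP_cb200a_pr.Jk
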