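import Pool.Agent.Lib.MP_cb200a_pr.Jk.Sn

set_option autoImplicit false

open Finset

namespace Pool.Agent.Lib.MP_cb200a_pr.Jk

variable {n : ℕ} {θ : ℝ}

open Classical in
/-- Strictly increasing integer tuples in a box with prescribed sum. -/
noncomputable def Box (D U : Fin n → ℤ) (T : ℤ) : Finset (Fin n → ℤ) :=
  (Fintype.piFinset fun i => Finset.Icc (D i) (U i)).filter fun h => StrictMono h ∧ ∑ i, h i = T

theorem mem_Box {D U : Fin n → ℤ} {T : ℤ} {h : Fin n → ℤ} :
    h ∈ Box D U T ↔ (∀ i, D i ≤ h i ∧ h i ≤ U i) ∧ StrictMono h ∧ ∑ i, h i = T := by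
  simp [Box, Fintype.mem_piFinset]

/-- Unit vector. -/
def e (k : Fin n) : Fin n → ℤ := fun l => if l = k then 1 else 0

theorem e_apply (k l : Fin n) : e k l = if l = k then 1 else 0 := rfl

theorem sum_e (k : Fin n) : ∑ l, e k l = 1 := by simp [e]

/-- Real positions of the particles. -/
noncomputable def L (θ : ℝ) (h : Fin n → ℤ) (i : Fin n) : ℝ := (h i : ℝ) + (θ - 1) * (i : ℕ)

/-- Ratio of consecutive values of the interaction. -/
noncomputable def rr [S : Sn] (θ x : ℝ) : ℝ :=
  S.s (x + 1) * S.s (x + θ) / (S.s x * S.s (x + 1 - θ))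

/-- The two-particle interaction. -/
noncomputable def psi [Sn] (θ x : ℝ) : ℝ :=
  if θ ≤ x then ∏ r ∈ range ⌊x - θ⌋₊, rr θ (x - 1 - r) else 0

/-- The weight of a configuration. -/
noncomputable def wt [Sn] (θ : ℝ) (h : Fin n → ℤ) : ℝ :=
  ∏ i, ∏ j, if i < j then psi θ (L θ h j - L θ h i) else 1

/-- Jump rates. -/
noncomputable def rt [S : Sn] (θ : ℝ) (h : Fin n → ℤ) (ε : ℝ) (i : Fin n) : ℝ :=
  ∏ l ∈ univ.erase i, (S.s (L θ h i + ε - L θ h l) / S.s (L θ h i - L θ h l))

/-- Total jump rate. -/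
noncomputable def cn [S : Sn] (n : ℕ) (ε : ℝ) : ℝ :=
  ∑ i : Fin n, ∏ l ∈ univ.erase i,
    (S.s ((i.val : ℝ) + ε - (l.val : ℝ)) / S.s ((i.val : ℝ) - (l.val : ℝ)))

theorem gap {h : Fin n → ℤ} (hh : StrictMono h) :
    ∀ (d : ℕ) (i j : Fin n), j.val = i.val + d → (d : ℤ) ≤ h j - h i
  | 0, i, j, c => by
    have : j = i := Fin.ext (by omega)
    simp [this]
  | d + 1, i, j, c => by
    have a := gap hh d i ⟨i.val + d, by omega⟩ rfl
    have b : h ⟨i.val + d, by omega⟩ < h j := hh (by rw [Fin.lt_def]; simp only; omega)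
    push_cast; omega

theorem L_add (h : Fin n → ℤ) (k l : Fin n) :
    L θ (h + e k) l = L θ h l + if l = k then 1 else 0 := by
  simp only [L, Pi.add_apply, e]; split_ifs <;> push_cast <;> ring

theorem L_sub (h : Fin n → ℤ) (k l : Fin n) :
    L θ (h - e k) l = L θ h l - if l = k then 1 else 0 := by
  simp only [L, Pi.sub_apply, e]; split_ifs <;> push_cast <;> ring

theorem L_adj {h : Fin n → ℤ} (hh : StrictMono h) {p q : Fin n} (hpq : p < q)
    (h1 : h p + 1 = h q) : L θ h q = L θ h p + θ := by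
  have hd : q.val = p.val + (q.val - p.val) := by rw [Fin.lt_def] at hpq; omega
  have := gap hh _ p q hd
  have h2 : q.val = p.val + 1 := by rw [Fin.lt_def] at hpq; omega
  simp only [L, ← h1, h2]; push_cast; ring

section

variable [hθ : Fact (0 < θ)]

theorem L_gap {h : Fin n → ℤ} (hh : StrictMono h) {i j : Fin n} (hij : i < j) :
    θ ≤ L θ h j - L θ h i := by
  obtain ⟨d, hd⟩ : ∃ d : ℕ, j.val = i.val + (d + 1) :=
    ⟨j.val - i.val - 1, by rw [Fin.lt_def] at hij; omega⟩
  have a : ((d + 1 : ℕ) : ℝ) ≤ (h j : ℝ) - h i := by exact_mod_cast gap hh _ i j hd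
  simp only [L, hd]
  push_cast at a ⊢
  nlinarith [mul_nonneg hθ.out.le (Nat.cast_nonneg (α := ℝ) d)]

theorem L_ne {h : Fin n → ℤ} (hh : StrictMono h) {i j : Fin n} (hij : j ≠ i) :
    θ ≤ L θ h i - L θ h j ∨ L θ h i - L θ h j ≤ -θ := by
  rcases lt_or_gt_of_ne hij with c | c
  · exact Or.inl (L_gap hh c)
  · exact Or.inr (by linarith [L_gap (θ := θ) hh c])

theorem L_ne' {h : Fin n → ℤ} (hh : StrictMono h) {i j : Fin n} (hij : j ≠ i) :
    L θ h i - L θ h j ≠ 0 := by
  have := hθ.out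
  rcases L_ne (θ := θ) hh hij with c | c <;> intro hc <;> linarith

variable [S : Sn]

theorem rr_pos {x : ℝ} (hx : θ ≤ x) : 0 < rr θ x := by
  have := hθ.out
  exact div_pos (mul_pos (s_pos (by linarith)) (s_pos (by linarith)))
    (mul_pos (s_pos (by linarith)) (s_pos (by linarith)))

theorem psi_pos {x : ℝ} (hx : θ ≤ x) : 0 < psi θ x := by
  rw [psi, if_pos hx]
  refine Finset.prod_pos fun r hr => rr_pos ?_
  have a : ((r + 1 : ℕ) : ℝ) ≤ ⌊x - θ⌋₊ := by exact_mod_cast Finset.mem_range.1 hr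
  have b := Nat.floor_le (by linarith : 0 ≤ x - θ)
  push_cast at a
  linarith

omit hθ in
theorem psi_zero {x : ℝ} (hx : x < θ) : psi θ x = 0 := if_neg (not_le.2 hx)

theorem psi_nonneg (x : ℝ) : 0 ≤ psi θ x := by
  rcases le_or_gt θ x with h | h
  · exact (psi_pos h).le
  · exact (psi_zero h).ge

omit hθ in
theorem psi_succ {x : ℝ} (hx : θ ≤ x) : psi θ (x + 1) = psi θ x * rr θ x := by
  rw [psi, psi, if_pos hx, if_pos (by linarith), show x + 1 - θ = x - θ + 1 by ring,
    Nat.floor_add_one (by linarith), Finset.prod_range_succ']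
  congr 1
  · exact Finset.prod_congr rfl fun r _ => by congr 1; push_cast; ring
  · congr 1; simp

theorem psi_rec {x : ℝ} (hx : θ ≤ x) :
    psi θ (x + 1) * (S.s x * S.s (x + 1 - θ)) = psi θ x * (S.s (x + 1) * S.s (x + θ)) := by
  have h0 := hθ.out
  have n1 : S.s x ≠ 0 := (s_pos (by linarith)).ne'
  have n4 : S.s (x + 1 - θ) ≠ 0 := (s_pos (by linarith)).ne'
  rw [psi_succ hx, rr]
  field_simp

theorem wt_nonneg (h : Fin n → ℤ) : 0 ≤ wt θ h :=
  Finset.prod_nonneg fun i _ => Finset.prod_nonneg fun j _ => by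
    split_ifs
    · exact psi_nonneg _
    · exact zero_le_one

theorem wt_pos {h : Fin n → ℤ} (hh : StrictMono h) : 0 < wt θ h :=
  Finset.prod_pos fun i _ => Finset.prod_pos fun j _ => by
    split_ifs with hij
    · exact psi_pos (L_gap hh hij)
    · exact one_pos

omit hθ in
theorem wt_split (h : Fin n → ℤ) (k : Fin n) :
    wt θ h = (∏ l ∈ univ.erase k,
        if l < k then psi θ (L θ h k - L θ h l) else psi θ (L θ h l - L θ h k)) *
      ∏ i ∈ univ.erase k, ∏ j ∈ univ.erase k,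
        (if i < j then psi θ (L θ h j - L θ h i) else 1) := by
  unfold wt
  rw [← Finset.mul_prod_erase univ _ (mem_univ k), ← Finset.mul_prod_erase univ _ (mem_univ k),
    if_neg (lt_irrefl k), one_mul]
  have : ∀ i, (∏ j, if i < j then psi θ (L θ h j - L θ h i) else 1) =
      (if i < k then psi θ (L θ h k - L θ h i) else 1) *
        ∏ j ∈ univ.erase k, (if i < j then psi θ (L θ h j - L θ h i) else 1) := fun i =>
    (Finset.mul_prod_erase univ (fun j => if i < j then psi θ (L θ h j - L θ h i) else 1)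
      (mem_univ k)).symm
  simp_rw [this]
  rw [Finset.prod_mul_distrib, ← mul_assoc, ← Finset.prod_mul_distrib]
  congr 1
  refine Finset.prod_congr rfl fun l hl => ?_
  rcases lt_or_gt_of_ne (Finset.ne_of_mem_erase hl) with h1 | h1
  · rw [if_neg (not_lt.2 h1.le), if_pos h1, if_pos h1, one_mul]
  · rw [if_pos h1, if_neg (not_lt.2 h1.le), if_neg (not_lt.2 h1.le), mul_one]

theorem edge {g : Fin n → ℤ} {k : Fin n} (hg : StrictMono g) (hk : StrictMono (g + e k)) :
    wt θ (g + e k) * rt θ (g + e k) (-θ) k = wt θ g * rt θ g θ k := by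
  have h0 := hθ.out
  rw [wt_split g k, wt_split (g + e k) k, rt, rt, mul_right_comm, mul_right_comm _ _
    (∏ l ∈ univ.erase k, (S.s (L θ g k + θ - L θ g l) / S.s (L θ g k - L θ g l)))]
  refine congrArg₂ _ ?_ ?_
  · rw [← Finset.prod_mul_distrib, ← Finset.prod_mul_distrib]
    refine Finset.prod_congr rfl fun l hl => ?_
    have hl' := Finset.ne_of_mem_erase hl
    simp only [L_add, if_true, if_neg hl', add_zero]
    rcases lt_or_gt_of_ne hl' with c | c
    · have a := L_gap (θ := θ) hg c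
      have r := psi_rec a
      rw [if_pos c, if_pos c]
      obtain ⟨x, hx⟩ : ∃ x, x = L θ g k - L θ g l := ⟨_, rfl⟩
      rw [show L θ g k + 1 - L θ g l = x + 1 by rw [hx]; ring,
        show L θ g k + 1 + -θ - L θ g l = x + 1 - θ by rw [hx]; ring,
        show L θ g k + θ - L θ g l = x + θ by rw [hx]; ring, ← hx]
      rw [← hx] at a r
      have n1 : S.s x ≠ 0 := (s_pos (by linarith)).ne'
      have n2 : S.s (x + 1) ≠ 0 := (s_pos (by linarith)).ne'
      field_simp
      linarith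
    · have a := L_gap (θ := θ) hk c
      simp only [L_add, if_true, if_neg hl', add_zero] at a
      have r := psi_rec a
      rw [if_neg (not_lt.2 c.le), if_neg (not_lt.2 c.le)]
      obtain ⟨x, hx⟩ : ∃ x, x = L θ g l - (L θ g k + 1) := ⟨_, rfl⟩
      rw [show L θ g k + 1 - L θ g l = -x by rw [hx]; ring,
        show L θ g k + 1 + -θ - L θ g l = -(x + θ) by rw [hx]; ring,
        show L θ g k + θ - L θ g l = -(x + 1 - θ) by rw [hx]; ring,
        show L θ g k - L θ g l = -(x + 1) by rw [hx]; ring,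
        show L θ g l - L θ g k = x + 1 by rw [hx]; ring, ← hx, S.odd, S.odd, S.odd, S.odd,
        neg_div_neg_eq, neg_div_neg_eq]
      rw [← hx] at a r
      have n1 : S.s x ≠ 0 := (s_pos (by linarith)).ne'
      have n2 : S.s (x + 1) ≠ 0 := (s_pos (by linarith)).ne'
      field_simp
      linarith
  · refine Finset.prod_congr rfl fun i hi => Finset.prod_congr rfl fun j hj => ?_
    simp only [L_add, if_neg (Finset.ne_of_mem_erase hi), if_neg (Finset.ne_of_mem_erase hj),
      add_zero]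

theorem fac_nonneg {h : Fin n → ℤ} (hh : StrictMono h) (ε : ℝ) (hε : ε = θ ∨ ε = -θ)
    {i l : Fin n} (hl : l ≠ i) : 0 ≤ S.s (L θ h i + ε - L θ h l) / S.s (L θ h i - L θ h l) := by
  have := hθ.out
  rcases L_ne (θ := θ) hh hl with c | c
  · exact div_nonneg (s_nonneg (by rcases hε with h | h <;> linarith)) (s_nonneg (by linarith))
  · exact div_nonneg_of_nonpos (s_nonpos (by rcases hε with h | h <;> linarith))
      (s_nonpos (by linarith))

theorem rt_nonneg {h : Fin n → ℤ} (hh : StrictMono h) (ε : ℝ) (hε : ε = θ ∨ ε = -θ) (i : Fin n) :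
    0 ≤ rt θ h ε i :=
  Finset.prod_nonneg fun _ hl => fac_nonneg hh ε hε (Finset.ne_of_mem_erase hl)

omit hθ in
theorem cn_pos (hn : 0 < n) {ε : ℝ} (hε : ε ≠ 0) : 0 < cn n ε := by
  obtain ⟨C, h1, h2⟩ := S.harm n ε hn hε
  rwa [cn, h2 (fun i => (i.val : ℝ)) fun a b hab => Fin.ext (Nat.cast_injective (R := ℝ) hab)]

theorem rt_sum {h : Fin n → ℤ} (hh : StrictMono h) (ε : ℝ) (hε : ε ≠ 0) :
    ∑ i, rt θ h ε i = cn n ε := by
  rcases Nat.eq_zero_or_pos n with rfl | hn
  · simp [cn]
  obtain ⟨C, -, h2⟩ := S.harm n ε hn hε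
  rw [cn, h2 (fun i => (i.val : ℝ)) fun a b hab => Fin.ext (Nat.cast_injective (R := ℝ) hab)]
  exact h2 (L θ h) fun a b hab => by
    by_contra hc
    exact L_ne' (θ := θ) hh hc (by rw [hab, sub_self])

theorem sm_add {h : Fin n → ℤ} (hh : StrictMono h) (j : Fin n) :
    StrictMono (h + e j) ↔ rt θ h θ j ≠ 0 := by
  have h0 := hθ.out
  rw [rt, Finset.prod_ne_zero_iff]
  constructor
  · intro hs l hl
    have hl' := Finset.ne_of_mem_erase hl
    refine div_ne_zero (s_ne ?_) (s_ne (L_ne' hh hl'))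
    rcases lt_or_gt_of_ne hl' with c | c
    · have := L_gap (θ := θ) hh c
      intro hc; linarith
    · have := L_gap (θ := θ) hs c
      simp only [L_add, if_true, if_neg hl', add_zero] at this
      intro hc; linarith
  · intro hs p q hpq
    have h1 := hh hpq
    simp only [Pi.add_apply, e]
    split_ifs with h2 h3 h3
    · omega
    · subst h2
      have := (div_ne_zero_iff.1 (hs q (Finset.mem_erase.2 ⟨h3, mem_univ _⟩))).1
      have : h p + 1 ≠ h q := fun hc => this (by rw [L_adj hh hpq hc, sub_self, s_zero])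
      omega
    · omega
    · omega

theorem sm_sub {h : Fin n → ℤ} (hh : StrictMono h) (j : Fin n) :
    StrictMono (h - e j) ↔ rt θ h (-θ) j ≠ 0 := by
  have h0 := hθ.out
  rw [rt, Finset.prod_ne_zero_iff]
  constructor
  · intro hs l hl
    have hl' := Finset.ne_of_mem_erase hl
    refine div_ne_zero (s_ne ?_) (s_ne (L_ne' hh hl'))
    rcases lt_or_gt_of_ne hl' with c | c
    · have := L_gap (θ := θ) hs c
      simp only [L_sub, if_true, if_neg hl', sub_zero] at this
      intro hc; linarith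
    · have := L_gap (θ := θ) hh c
      intro hc; linarith
  · intro hs p q hpq
    have h1 := hh hpq
    simp only [Pi.sub_apply, e]
    split_ifs with h2 h3 h3
    · omega
    · omega
    · subst h3
      have := (div_ne_zero_iff.1 (hs p (Finset.mem_erase.2 ⟨h2, mem_univ _⟩))).1
      have : h p + 1 ≠ h q := fun hc => this (by
        rw [L_adj hh hpq hc, add_neg_cancel_right, sub_self, s_zero])
      omega
    · omega

theorem rt_mono {h : Fin n → ℤ} {k i : Fin n} (hh : StrictMono h) (hk : StrictMono (h + e k))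
    (hik : i ≠ k) :
    rt θ h θ i ≤ rt θ (h + e k) θ i ∧ rt θ (h + e k) (-θ) i ≤ rt θ h (-θ) i := by
  have h0 := hθ.out
  have hd : 0 < S.s (L θ h i - L θ h k) * S.s (L θ h i - L θ h k - 1) := by
    rcases lt_or_gt_of_ne hik with c | c
    · have := L_gap (θ := θ) hh c
      exact mul_pos_of_neg_of_neg (s_neg (by linarith)) (s_neg (by linarith))
    · have := L_gap (θ := θ) hk c
      simp only [L_add, if_true, if_neg hik, add_zero] at this
      exact mul_pos (s_pos (by linarith)) (s_pos (by linarith))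
  obtain ⟨f1, f2⟩ := s_frac h0.le (by linarith) hd
  constructor
  · refine Finset.prod_le_prod
      (fun l hl => fac_nonneg hh θ (Or.inl rfl) (Finset.ne_of_mem_erase hl)) fun l _ => ?_
    by_cases hl : l = k
    · subst hl
      simp only [L_add, if_true, if_neg hik, add_zero]
      rwa [show L θ h i + θ - L θ h l = L θ h i - L θ h l + θ by ring,
        show L θ h i + θ - (L θ h l + 1) = L θ h i - L θ h l - 1 + θ by ring,
        show L θ h i - (L θ h l + 1) = L θ h i - L θ h l - 1 by ring]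
    · simp [L_add, hl, hik]
  · refine Finset.prod_le_prod
      (fun l hl => fac_nonneg hk (-θ) (Or.inr rfl) (Finset.ne_of_mem_erase hl)) fun l _ => ?_
    by_cases hl : l = k
    · subst hl
      simp only [L_add, if_true, if_neg hik, add_zero]
      rwa [show L θ h i + -θ - L θ h l = L θ h i - L θ h l - θ by ring,
        show L θ h i + -θ - (L θ h l + 1) = L θ h i - L θ h l - 1 - θ by ring,
        show L θ h i - (L θ h l + 1) = L θ h i - L θ h l - 1 by ring]
    · simp [L_add, hl, hik]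

/-- Rate of the two-step move. -/
noncomputable def rho (θ : ℝ) (h : Fin n → ℤ) (i j : Fin n) : ℝ :=
  rt θ h (-θ) i * rt θ (h - e i) θ j

theorem rho_nonneg {h : Fin n → ℤ} (hh : StrictMono h) (i j : Fin n) : 0 ≤ rho θ h i j := by
  unfold rho
  by_cases c : rt θ h (-θ) i = 0
  · rw [c, zero_mul]
  · exact mul_nonneg (rt_nonneg hh _ (Or.inr rfl) _)
      (rt_nonneg ((sm_sub hh i).2 c) _ (Or.inl rfl) _)

theorem rho_sum {h : Fin n → ℤ} (hh : StrictMono h) :
    ∑ i, ∑ j, rho θ h i j = cn n (-θ) * cn n θ := by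
  have h0 := hθ.out
  have : ∀ i, ∑ j, rho θ h i j = rt θ h (-θ) i * cn n θ := fun i => by
    unfold rho
    rw [← Finset.mul_sum]
    by_cases c : rt θ h (-θ) i = 0
    · rw [c, zero_mul, zero_mul]
    · rw [rt_sum ((sm_sub hh i).2 c) _ h0.ne']
  simp_rw [this]
  rw [← Finset.sum_mul, rt_sum hh _ (neg_ne_zero.2 h0.ne')]

theorem cc_pos (hn : 0 < n) : 0 < cn n (-θ) * cn n θ :=
  mul_pos (cn_pos hn (neg_ne_zero.2 hθ.out.ne')) (cn_pos hn hθ.out.ne')

theorem balance {h : Fin n → ℤ} {i j : Fin n} (hh : StrictMono h)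
    (hm : StrictMono (h - e i + e j)) :
    wt θ (h - e i + e j) * rho θ (h - e i + e j) j i = wt θ h * rho θ h i j := by
  unfold rho
  rw [add_sub_cancel_right]
  by_cases c : StrictMono (h - e i)
  · have a1 := edge (θ := θ) c hm
    have a2 := edge (θ := θ) (k := i) c (by rwa [sub_add_cancel])
    rw [sub_add_cancel] at a2
    rw [← mul_assoc, ← mul_assoc, a1, a2]; ring
  · have a1 : rt θ h (-θ) i = 0 := by
      by_contra hc; exact c ((sm_sub hh i).2 hc)
    have a2 : rt θ (h - e i + e j) (-θ) j = 0 := by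
      by_contra hc
      have := (sm_sub hm j).2 hc
      rw [add_sub_cancel_right] at this
      exact c this
    rw [a1, a2]; ring

end

theorem sm_mv {h : Fin n → ℤ} {i j : Fin n} (hh : StrictMono h) (h1 : StrictMono (h - e i))
    (h2 : StrictMono (h + e j)) (h3 : j < i → h j + 2 < h i) : StrictMono (h - e i + e j) := by
  intro p q hpq
  have a0 := hh hpq
  have a1 := h1 hpq
  have a2 := h2 hpq
  simp only [Pi.add_apply, Pi.sub_apply, e] at a1 a2 ⊢
  by_cases c : p = j ∧ q = i
  · obtain ⟨rfl, rfl⟩ := c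
    have := h3 hpq
    simp only [if_true, if_neg hpq.ne, if_neg hpq.ne']
    omega
  · split_ifs at a1 a2 ⊢ <;> omega

theorem exists_add {x y : Fin n → ℤ} (hx : StrictMono x) (hy : StrictMono y)
    (h : ∃ j, x j < y j) : ∃ j, x j < y j ∧ StrictMono (x + e j) := by
  classical
  obtain ⟨j0, hj0⟩ := h
  obtain ⟨j, hj, hmax⟩ := Finset.exists_max_image (univ.filter fun j => x j < y j) id
    ⟨j0, by simpa using hj0⟩
  simp only [mem_filter, mem_univ, true_and, id] at hj hmax
  refine ⟨j, hj, fun p q hpq => ?_⟩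
  have a0 := hx hpq
  have a1 := hy hpq
  simp only [Pi.add_apply, e]
  split_ifs with h1 h2 h2
  · omega
  · subst h1
    have : ¬ x q < y q := fun hc => absurd (hmax q hc) (not_le.2 hpq)
    omega
  · omega
  · omega

theorem exists_sub {x y : Fin n → ℤ} (hx : StrictMono x) (hy : StrictMono y)
    (h : ∃ j, y j < x j) : ∃ j, y j < x j ∧ StrictMono (x - e j) := by
  classical
  obtain ⟨j0, hj0⟩ := h
  obtain ⟨j, hj, hmin⟩ := Finset.exists_min_image (univ.filter fun j => y j < x j) id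
    ⟨j0, by simpa using hj0⟩
  simp only [mem_filter, mem_univ, true_and, id] at hj hmin
  refine ⟨j, hj, fun p q hpq => ?_⟩
  have a0 := hx hpq
  have a1 := hy hpq
  simp only [Pi.sub_apply, e]
  split_ifs with h1 h2 h2
  · omega
  · omega
  · subst h2
    have : ¬ y p < x p := fun hc => absurd (hmin p hc) (not_le.2 hpq)
    omega
  · omega

theorem exists_lt_of_sum {x y : Fin n → ℤ} (h : ∑ i, x i ≤ ∑ i, y i) (hne : x ≠ y) :
    ∃ j, x j < y j := by
  by_contra hc
  push Not at hc
  apply hne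
  funext i
  have := (Finset.sum_eq_sum_iff_of_le (s := univ) (fun j _ => hc j)).1
    (le_antisymm (Finset.sum_le_sum fun j _ => hc j) h) i (mem_univ i)
  exact this.symm

theorem sum_mv (h : Fin n → ℤ) (i j : Fin n) : ∑ l, (h - e i + e j) l = ∑ l, h l := by
  simp [Finset.sum_add_distrib, sum_e]

theorem step {D U : Fin n → ℤ} {T : ℤ} {x y : Fin n → ℤ} (hx : x ∈ Box D U T)
    (hy : y ∈ Box D U T) (hne : x ≠ y) : ∃ i j, StrictMono (x - e i) ∧
      x - e i + e j ∈ Box D U T ∧
      ∑ l, ((x - e i + e j) l - y l).natAbs < ∑ l, (x l - y l).natAbs := by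
  rw [mem_Box] at hx hy
  obtain ⟨x1, x2, x3⟩ := hx
  obtain ⟨y1, y2, y3⟩ := hy
  obtain ⟨j, hj, sj⟩ := exists_add x2 y2 (exists_lt_of_sum (by omega) hne)
  obtain ⟨i, hi, si⟩ := exists_sub x2 y2 (exists_lt_of_sum (by omega) hne.symm)
  have hij : i ≠ j := by rintro rfl; omega
  refine ⟨i, j, si, mem_Box.2 ⟨fun l => ?_,
    sm_mv x2 si sj fun hc => ?_, by rw [sum_mv, x3]⟩, ?_⟩
  · have := x1 l
    have := y1 l
    simp only [Pi.add_apply, Pi.sub_apply, e]
    split_ifs with h1 h2 h2 <;> subst_vars <;> omega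
  · have := y2 hc
    omega
  · refine Finset.sum_lt_sum (fun l _ => ?_) ⟨i, mem_univ _, ?_⟩
    · simp only [Pi.add_apply, Pi.sub_apply, e]
      split_ifs with h1 h2 h2 <;> subst_vars <;> omega
    · simp only [Pi.add_apply, Pi.sub_apply, e, if_true, if_neg hij]
      omega

open Classical in
/-- The move of the chain. -/
noncomputable def mvr (S : Finset (Fin n → ℤ)) (h : Fin n → ℤ) (i j : Fin n) : Fin n → ℤ :=
  if h - e i + e j ∈ S then h - e i + e j else h

theorem mvr_mem {S : Finset (Fin n → ℤ)} {h : Fin n → ℤ} (hh : h ∈ S) (i j : Fin n) :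
    mvr S h i j ∈ S := by
  unfold mvr; split_ifs with h1
  · exact h1
  · exact hh

theorem mvr_pos {S : Finset (Fin n → ℤ)} {h : Fin n → ℤ} {i j : Fin n}
    (hh : h - e i + e j ∈ S) : mvr S h i j = h - e i + e j := if_pos hh

theorem mvr_neg {S : Finset (Fin n → ℤ)} {h : Fin n → ℤ} {i j : Fin n}
    (hh : h - e i + e j ∉ S) : mvr S h i j = h := if_neg hh

theorem pointwise {D U : Fin n → ℤ} {T : ℤ} {h : Fin n → ℤ} {k i i' j j' l : Fin n}
    (hh : h ∈ Box D U T) (hk : h + e k ∈ Box D U (T + 1))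
    (c : h + e k - e i' + e j' = h - e i + e j + e l) (s1 : StrictMono (h - e i + e j))
    (s2 : StrictMono (h + e k - e i' + e j')) :
    ∃ l, mvr (Box D U (T + 1)) (h + e k) i' j' = mvr (Box D U T) h i j + e l := by
  obtain ⟨x1, x2, x3⟩ := mem_Box.1 hh
  obtain ⟨y1, y2, y3⟩ := mem_Box.1 hk
  by_cases hm : h - e i + e j ∈ Box D U T
  · rw [mvr_pos hm]
    by_cases hz : h + e k - e i' + e j' ∈ Box D U (T + 1)
    · exact ⟨l, by rw [mvr_pos hz, c]⟩
    · rw [mvr_neg hz]
      by_cases hl : l = j'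
      · subst hl
        exact ⟨i', by rw [← add_right_cancel c, sub_add_cancel]⟩
      · refine absurd (mem_Box.2 ⟨fun p => ?_, s2, by rw [sum_mv, y3]⟩) hz
        have a := (mem_Box.1 hm).1 p
        have b := y1 p
        have d := congrFun c p
        have u1 : ∀ q, 0 ≤ e q p := fun q => by rw [e_apply]; split_ifs <;> omega
        have u2 := u1 l
        have u3 := u1 i'
        simp only [Pi.add_apply (_ : Fin n → ℤ) (e j'), Pi.add_apply (_ : Fin n → ℤ) (e l),
          Pi.sub_apply (_ : Fin n → ℤ) (e i')] at d ⊢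
        by_cases hp : p = j'
        · have : e l p = 0 := by rw [e_apply, if_neg (by rw [hp]; exact Ne.symm hl)]
          omega
        · have : e j' p = 0 := by rw [e_apply, if_neg hp]
          omega
  · rw [mvr_neg hm]
    by_cases hz : h + e k - e i' + e j' ∈ Box D U (T + 1)
    · rw [mvr_pos hz]
      by_cases hl : l = i
      · subst hl
        exact ⟨j, by rw [c]; abel⟩
      · refine absurd (mem_Box.2 ⟨fun p => ?_, s1, by rw [sum_mv, x3]⟩) hm
        have a := (mem_Box.1 hz).1 p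
        rw [c] at a
        have b := x1 p
        have u1 : ∀ q, 0 ≤ e q p := fun q => by rw [e_apply]; split_ifs <;> omega
        have u2 := u1 l
        have u3 := u1 j
        simp only [Pi.add_apply, Pi.sub_apply] at a ⊢
        by_cases hp : p = i
        · have : e l p = 0 := by rw [e_apply, if_neg (by rw [hp]; exact Ne.symm hl)]
          omega
        · have : e i p = 0 := by rw [e_apply, if_neg hp]
          omega
    · exact ⟨k, by rw [mvr_neg hz]⟩

variable [hθ : Fact (0 < θ)] [S : Sn]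

/-- The chain on a box. -/
noncomputable def boxChain (θ : ℝ) [Fact (0 < θ)] (hn : 0 < n) (D U : Fin n → ℤ) (T : ℤ) :
    Chain (Box D U T) (Fin n × Fin n) where
  π x := wt θ x.1
  ρ x k := rho θ x.1 k.1 k.2 / (cn n (-θ) * cn n θ)
  mv x k := ⟨mvr (Box D U T) x.1 k.1 k.2, mvr_mem x.2 _ _⟩
  pos x := wt_pos (mem_Box.1 x.2).2.1
  nn x k := div_nonneg (rho_nonneg (mem_Box.1 x.2).2.1 _ _) (cc_pos hn).le
  one x := by
    have hx := (mem_Box.1 x.2).2.1
    rw [← Finset.sum_div, Fintype.sum_prod_type, rho_sum hx, div_self (cc_pos hn).ne']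
  stat F := by
    classical
    let Θ : Box D U T × (Fin n × Fin n) → Box D U T × (Fin n × Fin n) := fun z =>
      if hz : z.1.1 - e z.2.1 + e z.2.2 ∈ Box D U T then (⟨_, hz⟩, (z.2.2, z.2.1)) else z
    have inv : Function.Involutive Θ := by
      rintro ⟨⟨x, hx⟩, i, j⟩
      by_cases hz : x - e i + e j ∈ Box D U T
      · have e1 : x - e i + e j - e j + e i = x := by abel
        simp only [Θ, dif_pos hz]
        rw [dif_pos (by rw [e1]; exact hx)]
        simp only [e1]
      · simp only [Θ, dif_neg hz]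
    let G : Box D U T × (Fin n × Fin n) → ℝ := fun z =>
      wt θ z.1.1 * (rho θ z.1.1 z.2.1 z.2.2 / (cn n (-θ) * cn n θ)) * F z.1
    have key := Equiv.sum_comp inv.toPerm G
    have l : ∑ z, G z = ∑ x : Box D U T, wt θ x.1 * F x := by
      rw [Fintype.sum_prod_type]
      refine Finset.sum_congr rfl fun x _ => ?_
      have hx := (mem_Box.1 x.2).2.1
      simp only [G]
      rw [← Finset.sum_mul, ← Finset.mul_sum, ← Finset.sum_div, Fintype.sum_prod_type,
        rho_sum hx, div_self (cc_pos hn).ne', mul_one]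
    rw [← l, ← key, Fintype.sum_prod_type]
    refine Finset.sum_congr rfl fun x _ => ?_
    rw [Finset.mul_sum]
    refine Finset.sum_congr rfl fun k _ => ?_
    obtain ⟨i, j⟩ := k
    by_cases hz : x.1 - e i + e j ∈ Box D U T
    · have b := balance (θ := θ) (mem_Box.1 x.2).2.1 (mem_Box.1 hz).2.1
      simp only [G, Θ, Function.Involutive.coe_toPerm, dif_pos hz, mvr_pos hz]
      rw [← mul_div_assoc (wt θ _), b]; ring
    · simp only [G, Θ, Function.Involutive.coe_toPerm, dif_neg hz, mvr_neg hz]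
      ring
  irr F hF x y := by
    induction hd : ∑ l, (x.1 l - y.1 l).natAbs using Nat.strong_induction_on generalizing x with
    | _ d ih =>
      by_cases hxy : x.1 = y.1
      · rw [Subtype.ext hxy]
      obtain ⟨i, j, h1, h3, h4⟩ := step x.2 y.2 hxy
      have hx := (mem_Box.1 x.2).2.1
      have := hF x (i, j) (div_pos (lt_of_le_of_ne (rho_nonneg hx _ _) (mul_ne_zero
        ((sm_sub hx i).1 h1) ((sm_add h1 j).1 (mem_Box.1 h3).2.1)).symm) (cc_pos hn))
      rw [← this]
      refine ih _ ?_ _ rfl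
      simp only [mvr_pos h3]
      omega

theorem ep (D U : Fin n → ℤ) (T : ℤ) (F F' : (Fin n → ℤ) → ℝ)
    (hF : ∀ h ∈ Box D U T, ∀ k, h + e k ∈ Box D U (T + 1) → F h ≤ F' (h + e k)) :
    (∑ h ∈ Box D U T, wt θ h * F h) * ∑ h ∈ Box D U (T + 1), wt θ h ≤
      (∑ h ∈ Box D U (T + 1), wt θ h * F' h) * ∑ h ∈ Box D U T, wt θ h := by
  have h0 := hθ.out
  rcases (Box D U T).eq_empty_or_nonempty with h1 | ⟨x, hx⟩
  · simp [h1]
  rcases (Box D U (T + 1)).eq_empty_or_nonempty with h2 | ⟨y, hy⟩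
  · simp [h2]
  obtain ⟨x1, x2, x3⟩ := mem_Box.1 hx
  obtain ⟨y1, y2, y3⟩ := mem_Box.1 hy
  obtain ⟨j, hj, sj⟩ := exists_add x2 y2
    (exists_lt_of_sum (by omega) (by rintro rfl; omega))
  have hn : 0 < n := Fin.pos j
  have hxj : x + e j ∈ Box D U (T + 1) := by
    refine mem_Box.2 ⟨fun l => ?_, sj, by simp [Finset.sum_add_distrib, sum_e, x3]⟩
    have a := x1 l
    have b := y1 l
    simp only [Pi.add_apply, e]
    split_ifs <;> subst_vars <;> omega
  have key := couple (boxChain θ hn D U T) (boxChain θ hn D U (T + 1))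
    (fun a b => ∃ k, b.1 = a.1 + e k) ⟨⟨x, hx⟩, ⟨_, hxj⟩, j, rfl⟩ ?_ (fun a => F a.1)
    (fun b => F' b.1) ?_
  · simp only [boxChain] at key
    rwa [Finset.sum_coe_sort (Box D U T) (fun h => wt θ h * F h),
      Finset.sum_coe_sort (Box D U (T + 1)) (fun h => wt θ h * F' h),
      Finset.sum_coe_sort (Box D U T) (wt θ), Finset.sum_coe_sort (Box D U (T + 1)) (wt θ)] at key
  · rintro G G' hG ⟨a, ha⟩ ⟨b, hb⟩ ⟨k, rfl⟩
    have a2 := (mem_Box.1 ha).2.1
    have b2 := (mem_Box.1 hb).2.1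
    have := single_le (rt θ a (-θ)) (rt θ (a + e k) (-θ)) k
      (rt_nonneg a2 _ (Or.inr rfl)) (rt_nonneg b2 _ (Or.inr rfl))
      (fun i hi => (rt_mono a2 b2 hi).2)
      (by rw [rt_sum a2 _ (neg_ne_zero.2 h0.ne'), rt_sum b2 _ (neg_ne_zero.2 h0.ne')])
      (fun i => ∑ j, rt θ (a - e i) θ j *
        ((G ⟨a, ha⟩ + G ⟨_, mvr_mem ha i j⟩) / 2 / (cn n (-θ) * cn n θ)))
      (fun i => ∑ j, rt θ (a + e k - e i) θ j *
        ((G' ⟨_, hb⟩ + G' ⟨_, mvr_mem hb i j⟩) / 2 / (cn n (-θ) * cn n θ))) ?_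
    · simp only [Chain.P, boxChain, Fintype.sum_prod_type, rho]
      simp only [Finset.mul_sum] at this
      convert this using 3 <;> ring
    · intro i i' c1 n1 n2
      have g1 := (sm_sub a2 i).2 n1
      have g2 := (sm_sub b2 i').2 n2
      obtain ⟨m, hm⟩ : ∃ m, a + e k - e i' = a - e i + e m := by
        rcases c1 with rfl | rfl
        · exact ⟨k, by abel⟩
        · exact ⟨i, by abel⟩
      have g3 := hm ▸ g2
      refine single_le' _ _ m (rt_nonneg g1 _ (Or.inl rfl)) (rt_nonneg g2 _ (Or.inl rfl))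
        (fun j hj => by rw [hm]; exact (rt_mono g1 g3 hj).1)
        (by rw [rt_sum g1 _ h0.ne', rt_sum g2 _ h0.ne']) _ _ ?_
      intro j j' c2 n3 n4
      refine div_le_div_of_nonneg_right ?_ (cc_pos hn).le
      obtain ⟨l, hl⟩ : ∃ l, a + e k - e i' + e j' = a - e i + e j + e l := by
        rw [hm]
        rcases c2 with rfl | rfl
        · exact ⟨m, by abel⟩
        · exact ⟨j', rfl⟩
      have p := pointwise ha hb hl ((sm_add g1 j).2 n3) ((sm_add g2 j').2 n4)
      have u1 := hG ⟨a, ha⟩ ⟨_, hb⟩ ⟨k, rfl⟩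
      have u2 := hG ⟨_, mvr_mem ha i j⟩ ⟨_, mvr_mem hb i' j'⟩ p
      linarith
  · rintro ⟨a, ha⟩ ⟨b, hb⟩ ⟨k, rfl⟩
    exact hF a ha k hb

end Pool.Agent.Lib.MP_cb200a_pr.Jk
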