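import Pool.Agent.Lib.MP_cb200a_pr.Jk.M

set_option autoImplicit false

open Finset

namespace Pool.Agent.Lib.MP_cb200a_pr.Jk

variable {θ : ℝ}

/-- Test functions: nonnegative, decreasing and log-concave along unit steps. -/
structure Tst (g : ℝ → ℝ) : Prop where
  nn : ∀ v, 0 ≤ g v
  anti : ∀ v, g (v + 1) ≤ g v
  tp : ∀ a b, b ≤ a → g (a + 1) * g b ≤ g a * g (b + 1)

/-- Translation by one. -/
def sh (g : ℝ → ℝ) : ℝ → ℝ := fun v => g (v - 1)

theorem Tst.shift {g : ℝ → ℝ} (h : Tst g) : Tst (sh g) where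
  nn v := h.nn _
  anti v := by
    have := h.anti (v - 1)
    simp only [sh, add_sub_cancel_right, sub_add_cancel] at this ⊢
    exact this
  tp a b hab := by
    have := h.tp (a - 1) (b - 1) (by linarith)
    simp only [sh, add_sub_cancel_right, sub_add_cancel] at this ⊢
    exact this

theorem sum_shift (f : ℤ → ℝ) (b : ℤ) :
    ∑ t ∈ Finset.Ico 0 (b + 1), (if 1 ≤ t then f (t - 1) else 0) = ∑ u ∈ Finset.Ico 0 b, f u := by
  rw [← Finset.sum_filter]
  refine Finset.sum_nbij' (fun t => t - 1) (fun u => u + 1) ?_ ?_ ?_ ?_ ?_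
  · intro t ht
    simp only [mem_filter, Finset.mem_Ico] at ht ⊢
    omega
  · intro t ht
    simp only [mem_filter, Finset.mem_Ico] at ht ⊢
    omega
  · intro t _; simp
  · intro t _; simp
  · intro t _; rfl

variable [S : Sn]

/-- Ratio of consecutive values of the interaction. -/
noncomputable def kf (θ x : ℝ) : ℝ := S.s x / S.s (x + θ) * (S.s (x + 1 - θ) / S.s (x + 1))

/-- Ratio of the potentials of a frozen particle at `U` and at `U + 1`. -/
noncomputable def kap (θ U : ℝ) : ℝ → ℝ := fun v => if θ ≤ U - v then kf θ (U - v) else 0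

theorem sh_pot (φ : ℝ → ℝ) (U : ℝ) : sh (pot θ φ U) = pot θ (sh φ) (U + 1) := by
  funext v; simp only [sh, pot]; congr 2; ring

theorem sh_kap (U : ℝ) : sh (kap θ U) = kap θ (U + 1) := by
  funext v
  simp only [sh, kap, show U - (v - 1) = U + 1 - v by ring]

theorem Y_mul (N : ℕ) (φ g : ℝ → ℝ) (u T : ℤ) :
    Y θ N (φ * g) u T =
      φ (ps θ N u) * g (ps θ N u) * M θ N (pot θ φ (ps θ N u) * g) u (T - u) := by
  rw [Y, pot_mul, Pi.mul_apply]

omit S in
theorem mul_nn {φ g : ℝ → ℝ} {b : ℝ} (hφ : ∀ v, v ≤ b → 0 < φ v) (hg : Tst g) :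
    ∀ v, v ≤ b → 0 ≤ (φ * g) v := fun v hv => mul_nonneg (hφ v hv).le (hg.nn v)

theorem Y_eq_zero {N : ℕ} (φ : ℝ → ℝ) {u T : ℤ} (hu : 0 ≤ u) (h : ¬ Feas N u (T - u)) :
    Y θ N φ u T = 0 := by
  rw [Y, M_eq_zero N _ _ _ hu h, mul_zero]

theorem kf_eq (x : ℝ) :
    kf θ x = S.s x / S.s (x + θ) * (S.s (x + 1 - θ) / S.s (x + 1 - θ + θ)) := by
  rw [kf, sub_add_cancel]

variable [hθ : Fact (0 < θ)]

theorem kf_pos {x : ℝ} (hx : θ ≤ x) : 0 < kf θ x := by
  have := hθ.out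
  exact mul_pos (div_pos (s_pos (by linarith)) (s_pos (by linarith))) (div_pos (s_pos (by linarith)) (s_pos (by linarith)))

theorem kf_mono {x y : ℝ} (hx : θ ≤ x) (hxy : x ≤ y) : kf θ x ≤ kf θ y := by
  have h0 := hθ.out
  rw [kf_eq, kf_eq]
  exact mul_le_mul (frac_mono θ x y h0.le (by linarith) hxy)
    (frac_mono θ _ _ h0.le (by linarith) (by linarith))
    (div_nonneg (s_nonneg (by linarith)) (s_nonneg (by linarith))) (div_nonneg (s_nonneg (by linarith)) (s_nonneg (by linarith)))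

theorem kf_tp {x y : ℝ} (hx : θ ≤ x) (hxy : x ≤ y) :
    kf θ x * kf θ (y + 1) ≤ kf θ (x + 1) * kf θ y := by
  have h0 := hθ.out
  have a1 := frac_tp θ x y h0.le (by linarith) hxy
  have a2 := frac_tp θ (x + 1 - θ) (y + 1 - θ) h0.le (by linarith) (by linarith)
  have a3 := mul_le_mul a1 a2
    (mul_nonneg (div_nonneg (s_nonneg (by linarith)) (s_nonneg (by linarith))) (div_nonneg (s_nonneg (by linarith)) (s_nonneg (by linarith))))
    (mul_nonneg (div_nonneg (s_nonneg (by linarith)) (s_nonneg (by linarith))) (div_nonneg (s_nonneg (by linarith)) (s_nonneg (by linarith))))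
  simp only [kf_eq, show x + 1 + 1 - θ = x + 1 - θ + 1 by ring,
    show y + 1 + 1 - θ = y + 1 - θ + 1 by ring]
  linarith

theorem psi_kf {x : ℝ} (hx : θ ≤ x) : psi θ (x + 1) * kf θ x = psi θ x := by
  have h0 := hθ.out
  have := psi_rec hx
  have n2 : S.s (x + 1) ≠ 0 := (s_pos (by linarith)).ne'
  have n3 : S.s (x + θ) ≠ 0 := (s_pos (by linarith)).ne'
  rw [kf]
  field_simp
  linarith

theorem psi_lc (x : ℝ) : psi θ (x - 1) * psi θ (x + 1) ≤ psi θ x ^ 2 := by
  rcases lt_or_ge (x - 1) θ with h | h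
  · rw [psi_zero h, zero_mul]; positivity
  have a1 := psi_kf h
  have a2 := psi_kf (θ := θ) (x := x) (by linarith)
  rw [sub_add_cancel] at a1
  have a3 := kf_mono h (by linarith : x - 1 ≤ x)
  have a4 := mul_le_mul_of_nonneg_left a3
    (mul_nonneg (psi_nonneg (θ := θ) x) (psi_nonneg (θ := θ) (x + 1)))
  calc _ = psi θ x * psi θ (x + 1) * kf θ (x - 1) := by rw [← a1]; ring_nf
    _ ≤ _ := a4
    _ = _ := by rw [mul_assoc, a2, sq]

theorem kap_nn (U v : ℝ) : 0 ≤ kap θ U v := by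
  unfold kap
  split_ifs with h
  · exact (kf_pos h).le
  · exact le_rfl

theorem kap_tst (U : ℝ) : Tst (kap θ U) where
  nn := kap_nn U
  anti v := by
    by_cases h1 : θ ≤ U - (v + 1)
    · unfold kap
      rw [if_pos h1, if_pos (by linarith)]
      exact kf_mono h1 (by linarith)
    · have : kap θ U (v + 1) = 0 := if_neg h1
      rw [this]; exact kap_nn U v
  tp a b hab := by
    by_cases h1 : θ ≤ U - (a + 1)
    · unfold kap
      rw [if_pos h1, if_pos (by linarith), if_pos (by linarith), if_pos (by linarith)]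
      have := kf_tp h1 (by linarith : U - (a + 1) ≤ U - (b + 1))
      rwa [show U - (b + 1) + 1 = U - b by ring, show U - (a + 1) + 1 = U - a by ring] at this
    · have : kap θ U (a + 1) = 0 := if_neg h1
      rw [this, zero_mul]; exact mul_nonneg (kap_nn U _) (kap_nn U _)

theorem M_kap (N : ℕ) (φ g : ℝ → ℝ) (u S : ℤ) :
    M θ N (pot θ φ (ps θ N (u + 1)) * g * kap θ (ps θ N u)) (u + 1) S =
      M θ N (pot θ φ (ps θ N u) * g) u S := by
  rw [M_drop (by
    have : kap θ (ps θ N u) (ps θ N (u + 1) - θ) = 0 := if_neg (by rw [ps_succ]; linarith)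
    rw [Pi.mul_apply, this, mul_zero])]
  refine M_congr (fun v hv => ?_) S
  have h1 : θ ≤ ps θ N u - v := by linarith
  have := psi_kf h1
  simp only [pot, kap, Pi.mul_apply, if_pos h1, ps_succ]
  rw [← this, show ps θ N u + 1 - v = ps θ N u - v + 1 by ring, this, ← this]
  rw [this]
  linear_combination (φ v * g v) * this

theorem M_kap' (N : ℕ) (φ : ℝ → ℝ) (u S : ℤ) :
    M θ N (pot θ φ (ps θ N (u + 1)) * kap θ (ps θ N u)) (u + 1) S =
      M θ N (pot θ φ (ps θ N u)) u S := by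
  simpa using M_kap (θ := θ) N φ 1 u S

theorem Y_pos {N : ℕ} {φ : ℝ → ℝ} {b u T : ℤ} (hφ : ∀ v, v ≤ ps θ (N + 1) b - θ → 0 < φ v)
    (hu : u < b) (h : Feas N u (T - u)) : 0 < Y θ N φ u T :=
  mul_pos (hφ _ (ps_top N hu)) (M_pos N _ _ _ (pot_pos hφ hu) h)

/-- Positive correlation of product statistics. -/
def PC (θ : ℝ) (N : ℕ) : Prop :=
  ∀ (φ : ℝ → ℝ) (b : ℤ), Good θ N φ b → (∀ v, v ≤ ps θ N b - θ → 0 < φ v) →
    ∀ g g' : ℝ → ℝ, Tst g → Tst g' → ∀ T : ℤ,
      M θ N (φ * g) b T * M θ N (φ * g') b T ≤ M θ N (φ * g * g') b T * M θ N φ b T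

theorem dec_adj {N : ℕ} (pc : PC θ N) {φ : ℝ → ℝ} {b : ℤ} (hg : Good θ (N + 1) φ b)
    (hφ : ∀ v, v ≤ ps θ (N + 1) b - θ → 0 < φ v) {g : ℝ → ℝ} (tg : Tst g) {u : ℤ} (h0 : 0 ≤ u)
    (hu : u + 1 < b) (T : ℤ) :
    Y θ N (φ * g) (u + 1) T * Y θ N φ u T ≤ Y θ N (φ * g) u T * Y θ N φ (u + 1) T := by
  have t0 := hθ.out
  by_cases hf : Feas N u (T - u)
  swap
  · rw [Y_eq_zero φ h0 hf, Y_eq_zero _ h0 hf]; simp
  have g1 := hg.step hu (hφ _ (ps_top N hu))
  have p1 := pot_pos hφ hu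
  have a1 := pc _ _ g1 p1 g (kap θ (ps θ N u)) tg (kap_tst _) (T - u)
  rw [M_kap, M_kap'] at a1
  have a2 := g1.ep0 g (g (ps θ N (u + 1))) (g (ps θ N u)) (fun v _ => tg.nn v)
    (fun v hv => by
      rw [ps_succ] at hv ⊢
      exact tg.tp _ v (by linarith)) (T - (u + 1))
  rw [show T - (u + 1) + 1 = T - u by ring] at a2
  have z1 := M_pos N _ _ _ p1 (hf.mono (by omega : u ≤ u + 1))
  have z2 := M_nonneg (N := N) (fun v hv => (pot_pos hφ (by omega : u < b) v hv).le) (T - u)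
  have z3 := M_nonneg (N := N) (fun v hv => (p1 v hv).le) (T - (u + 1))
  have key : g (ps θ N (u + 1)) * M θ N (pot θ φ (ps θ N (u + 1)) * g) (u + 1) (T - (u + 1)) *
        M θ N (pot θ φ (ps θ N u)) u (T - u) ≤
      g (ps θ N u) * M θ N (pot θ φ (ps θ N u) * g) u (T - u) *
        M θ N (pot θ φ (ps θ N (u + 1))) (u + 1) (T - (u + 1)) := by
    refine le_of_mul_le_mul_left ?_ z1
    nlinarith [mul_le_mul_of_nonneg_left a2 z2,
      mul_le_mul_of_nonneg_left a1 (mul_nonneg (tg.nn (ps θ N u)) z3)]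
  rw [Y_mul, Y_mul, Y, Y]
  nlinarith [mul_le_mul_of_nonneg_left key
    (mul_nonneg (hφ _ (ps_top N (by omega : u < b))).le (hφ _ (ps_top N hu)).le)]

theorem dec {N : ℕ} (pc : PC θ N) {φ : ℝ → ℝ} {b : ℤ} (hg : Good θ (N + 1) φ b)
    (hφ : ∀ v, v ≤ ps θ (N + 1) b - θ → 0 < φ v) {g : ℝ → ℝ} (tg : Tst g) {s t : ℤ}
    (h0 : 0 ≤ s) (hst : s ≤ t) (ht : t < b) (T : ℤ) :
    Y θ N (φ * g) t T * Y θ N φ s T ≤ Y θ N (φ * g) s T * Y θ N φ t T := by
  by_cases hf : Feas N s (T - s)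
  swap
  · rw [Y_eq_zero φ h0 hf, Y_eq_zero _ h0 hf]; simp
  by_cases hf' : Feas N t (T - t)
  swap
  · rw [Y_eq_zero φ (by omega) hf', Y_eq_zero _ (by omega) hf']; simp
  exact chain_ratio (fun r => Y θ N (φ * g) r T) (fun r => Y θ N φ r T) s t hst
    (fun r h1 h2 => Y_pos hφ (by omega) (hf.mid hf'.2.1 h1 h2))
    (fun r h1 h2 => dec_adj pc hg hφ tg (by omega) (by omega) T)

theorem pc_all (N : ℕ) : PC θ N := by
  induction N with
  | zero =>
    intro φ b _ _ g g' _ _ T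
    simp only [M_zero]; exact le_rfl
  | succ N ih =>
    intro φ b hg hφ g g' tg tg' T
    simp only [M_succ]
    refine cheb _ (fun u => Y θ N (φ * g') u T) (fun u => Y θ N φ u T)
      (fun u => Y θ N (φ * g * g') u T) (fun u => Y θ N (φ * g) u T) ?_ ?_ ?_ ?_ ?_ ?_
    · intro s hs
      rw [Finset.mem_Ico] at hs
      exact Y_nonneg (mul_nn hφ tg') hs.2 T
    · intro s hs
      rw [Finset.mem_Ico] at hs
      exact Y_nonneg (fun v hv => (hφ v hv).le) hs.2 T
    · intro s hs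
      rw [Finset.mem_Ico] at hs
      exact Y_nonneg (fun v hv => mul_nonneg (mul_nn hφ tg v hv) (tg'.nn v)) hs.2 T
    · intro s hs h
      rw [Finset.mem_Ico] at hs
      exact Y_eq_zero _ hs.1 fun hf => (Y_pos hφ hs.2 hf).ne' h
    · intro s hs t ht hst
      rw [Finset.mem_Ico] at hs ht
      exact dec ih hg hφ tg' hs.1 hst ht.2 T
    · intro s hs t ht hst
      rw [Finset.mem_Ico] at hs ht
      by_cases hf : Feas N s (T - s)
      swap
      · simp only [Y_eq_zero _ hs.1 hf]; simp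
      have y1 := Y_pos hφ hs.2 hf
      have q := hφ _ (ps_top N hs.2)
      have a1 := dec ih hg hφ tg hs.1 hst ht.2 T
      have a2 : Y θ N (φ * g) s T * Y θ N (φ * g') s T ≤
          Y θ N (φ * g * g') s T * Y θ N φ s T := by
        have := ih _ _ (hg.step hs.2 q) (pot_pos hφ hs.2) g g' tg tg' (T - s)
        rw [Y_mul N (φ * g) g', Y_mul, Y_mul, Y, pot_mul, Pi.mul_apply]
        nlinarith [mul_le_mul_of_nonneg_left this (mul_nonneg
          (mul_nonneg q.le q.le) (mul_nonneg (tg.nn (ps θ N s)) (tg'.nn (ps θ N s))))]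
      have n1 : 0 ≤ Y θ N (φ * g') s T := Y_nonneg (mul_nn hφ tg') hs.2 T
      have n2 : 0 ≤ Y θ N φ t T := Y_nonneg (fun v hv => (hφ v hv).le) ht.2 T
      refine le_of_mul_le_mul_left ?_ y1
      nlinarith [mul_le_mul_of_nonneg_left a1 n1, mul_le_mul_of_nonneg_left a2 n2]

/-- Admissible potentials. -/
structure Adm (θ : ℝ) (N : ℕ) (φ : ℝ → ℝ) (b : ℤ) : Prop where
  good : Good θ N φ b
  good' : Good θ N (sh φ) (b + 1)
  pos : ∀ v, v ≤ ps θ N b - θ → 0 < φ v
  lc : ∀ v, v + 1 ≤ ps θ N b - θ → φ (v + 1) * φ (v - 1) ≤ φ v ^ 2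

omit hθ in
theorem Adm.pos' {N : ℕ} {φ : ℝ → ℝ} {b : ℤ} (h : Adm θ N φ b) :
    ∀ v, v ≤ ps θ N (b + 1) - θ → 0 < sh φ v :=
  fun v hv => h.pos _ (by rw [ps_succ] at hv; linarith)

omit hθ in
theorem sh_pot' (N : ℕ) (φ : ℝ → ℝ) (u : ℤ) :
    sh (pot θ φ (ps θ N u)) = pot θ (sh φ) (ps θ N (u + 1)) := by rw [sh_pot, ps_succ]

omit hθ in
theorem sh_kap' (N : ℕ) (u : ℤ) : sh (kap θ (ps θ N u)) = kap θ (ps θ N (u + 1)) := by
  rw [sh_kap, ps_succ]

omit hθ S in
theorem sh_ps (N : ℕ) (φ : ℝ → ℝ) (u : ℤ) : sh φ (ps θ N (u + 1)) = φ (ps θ N u) := by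
  simp [sh, ps_succ]

theorem Adm.step {N : ℕ} {φ : ℝ → ℝ} {b u : ℤ} (h : Adm θ (N + 1) φ b) (hu : u < b) :
    Adm θ N (pot θ φ (ps θ N u)) u where
  good := h.good.step hu (h.pos _ (ps_top N hu))
  good' := by
    rw [sh_pot']; exact h.good'.step (by omega) (h.pos' _ (ps_top N (by omega)))
  pos := pot_pos h.pos hu
  lc v hv := by
    have t0 := hθ.out
    have a0 := ps_top (θ := θ) N hu
    have a1 := h.lc v (by linarith)
    have a3 := psi_lc (θ := θ) (ps θ N u - v)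
    simp only [pot]
    rw [show ps θ N u - (v + 1) = ps θ N u - v - 1 by ring,
      show ps θ N u - (v - 1) = ps θ N u - v + 1 by ring]
    calc _ = (φ (v + 1) * φ (v - 1)) * (psi θ (ps θ N u - v - 1) * psi θ (ps θ N u - v + 1)) := by
          ring
      _ ≤ φ v ^ 2 * psi θ (ps θ N u - v) ^ 2 :=
          mul_le_mul a1 a3 (mul_nonneg (psi_nonneg _) (psi_nonneg _)) (by positivity)
      _ = _ := by ring

/-- Translating the potential moves the particles up by at most one. -/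
def GG (θ : ℝ) (N : ℕ) : Prop :=
  ∀ (φ : ℝ → ℝ) (b : ℤ), Adm θ N φ b → ∀ g : ℝ → ℝ, Tst g → ∀ T : ℤ,
    M θ N (φ * g) b T * M θ N (sh φ) (b + 1) T ≤ M θ N (sh φ * sh g) (b + 1) T * M θ N φ b T

theorem top_adj {N : ℕ} (gg : GG θ N) {φ : ℝ → ℝ} {b : ℤ} (h : Adm θ (N + 1) φ b) {w : ℤ}
    (h0 : 0 ≤ w) (hw : w + 1 < b) (T : ℤ) :
    Y θ N (sh φ) (w + 1 + 1) T * Y θ N φ w T ≤ Y θ N (sh φ) (w + 1) T * Y θ N φ (w + 1) T := by
  have t0 := hθ.out
  have n1 : 0 ≤ Y θ N (sh φ) (w + 1) T * Y θ N φ (w + 1) T :=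
    mul_nonneg (Y_nonneg (fun v hv => (h.pos' v hv).le) (by omega) T)
      (Y_nonneg (fun v hv => (h.pos v hv).le) hw T)
  by_cases f1 : Feas N w (T - w)
  swap
  · rw [Y_eq_zero φ h0 f1, mul_zero]; exact n1
  by_cases f2 : Feas N (w + 1 + 1) (T - (w + 1 + 1))
  swap
  · rw [Y_eq_zero _ (by omega) f2, zero_mul]; exact n1
  have f3 : Feas N (w + 1) (T - (w + 1)) := f1.mid f2.2.1 (by omega) (by omega)
  have f4 : Feas N (w + 1) (T - w) := f1.mono (by omega)
  have pχ := pot_pos h.pos' (by omega : w + 1 < b + 1)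
  have gχ := h.good'.step (by omega : w + 1 < b + 1) (h.pos' _ (ps_top N (by omega)))
  have B1 := M_pos N _ _ _ pχ f3
  have C1 := M_pos N _ _ _ pχ f4
  have hA := h.good'.epA (by omega : w + 1 + 1 < b + 1) T
  have hG := gg _ _ (h.step hw) (kap θ (ps θ N w)) (kap_tst _) (T - (w + 1))
  rw [M_kap', sh_pot', sh_kap', M_kap'] at hG
  have tw := ps_top (θ := θ) N hw
  have hE := gχ.ep2 (fun v => pot θ φ (ps θ N w) v / pot θ (sh φ) (ps θ N (w + 1)) v)
    (fun v hv => div_nonneg (mul_nonneg (h.pos v (by linarith)).le (psi_nonneg _)) (pχ v hv).le)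
    (fun v hv => ?_) (T - (w + 1))
  swap
  · rw [div_le_div_iff₀ (pχ _ hv) (pχ _ (by linarith))]
    have a1 := h.lc v (by linarith)
    have a3 := psi_lc (θ := θ) (ps θ N w - v)
    simp only [pot, sh, add_sub_cancel_right, ps_succ]
    rw [show ps θ N w - (v + 1) = ps θ N w - v - 1 by ring,
      show ps θ N w + 1 - v = ps θ N w - v + 1 by ring,
      show ps θ N w + 1 - (v + 1) = ps θ N w - v by ring]
    calc _ = (φ (v + 1) * φ (v - 1)) * (psi θ (ps θ N w - v - 1) * psi θ (ps θ N w - v + 1)) := by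
          ring
      _ ≤ φ v ^ 2 * psi θ (ps θ N w - v) ^ 2 :=
          mul_le_mul a1 a3 (mul_nonneg (psi_nonneg _) (psi_nonneg _)) (by positivity)
      _ = _ := by ring
  have hM : ∀ S, M θ N (pot θ (sh φ) (ps θ N (w + 1)) *
      fun v => pot θ φ (ps θ N w) v / pot θ (sh φ) (ps θ N (w + 1)) v) (w + 1) S =
      M θ N (pot θ φ (ps θ N w)) w S := by
    intro S
    rw [M_congr (ψ := pot θ φ (ps θ N w)) (fun v hv => by
      simp only [Pi.mul_apply]; rw [mul_div_cancel₀ _ (pχ v hv).ne']),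
      M_drop (by rw [pot, psi_zero (by rw [ps_succ]; linarith), mul_zero])]
  rw [hM, hM, show T - (w + 1) + 1 = T - w by ring] at hE
  have q1 := h.pos _ (ps_top N (by omega : w < b))
  have q2 := h.pos _ tw
  simp only [Y] at hA ⊢
  rw [show T + 1 - (w + 1) = T - w by ring, show T + 1 - (w + 1 + 1) = T - (w + 1) by ring] at hA
  rw [sh_ps, sh_ps] at hA ⊢
  have nC2 := M_nonneg (N := N)
    (fun v hv => (pot_pos h.pos' (by omega : w + 1 + 1 < b + 1) v hv).le) (T - (w + 1))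
  have nA2 := M_nonneg (N := N) (fun v hv => (pot_pos h.pos (by omega : w < b) v hv).le) (T - w)
  generalize M θ N (pot θ (sh φ) (ps θ N (w + 1 + 1))) (w + 1 + 1) (T - (w + 1 + 1)) = A1 at *
  generalize M θ N (pot θ (sh φ) (ps θ N (w + 1 + 1))) (w + 1 + 1) (T - (w + 1)) = C2 at *
  generalize M θ N (pot θ (sh φ) (ps θ N (w + 1))) (w + 1) (T - (w + 1)) = b1 at *
  generalize M θ N (pot θ (sh φ) (ps θ N (w + 1))) (w + 1) (T - w) = c1 at *
  generalize M θ N (pot θ φ (ps θ N w)) w (T - w) = A2 at *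
  generalize M θ N (pot θ φ (ps θ N w)) w (T - (w + 1)) = E at *
  generalize M θ N (pot θ φ (ps θ N (w + 1))) (w + 1) (T - (w + 1)) = B2 at *
  have k1 : A1 * c1 ≤ b1 * C2 := by
    refine le_of_mul_le_mul_left ?_ (mul_pos q1 q2)
    linarith
  have k2 : A1 * A2 ≤ b1 * B2 := by
    refine le_of_mul_le_mul_left ?_ C1
    nlinarith [mul_le_mul_of_nonneg_left k1 nA2, mul_le_mul_of_nonneg_left hE nC2,
      mul_le_mul_of_nonneg_left hG C1.le]
  nlinarith [mul_le_mul_of_nonneg_left k2 (mul_pos q1 q2).le]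

theorem cross1 {N : ℕ} (gg : GG θ N) {φ : ℝ → ℝ} {b : ℤ} (h : Adm θ (N + 1) φ b) {g : ℝ → ℝ}
    (tg : Tst g) {u : ℤ} (h0 : 0 ≤ u) (hu : u < b) (T : ℤ) :
    Y θ N (φ * g) u T * Y θ N (sh φ) (u + 1) T ≤
      Y θ N (sh φ * sh g) (u + 1) T * Y θ N φ u T := by
  by_cases hf : Feas N u (T - u)
  swap
  · rw [Y_eq_zero φ h0 hf, Y_eq_zero _ h0 hf]; simp
  have ad := h.step hu
  have a1 := gg _ _ ad g tg (T - u)
  have a2 := ad.good'.ep2 (sh g) (fun v _ => tg.shift.nn v) (fun v _ => tg.shift.anti v)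
    (T - (u + 1))
  rw [show T - (u + 1) + 1 = T - u by ring] at a2
  have z1 := M_pos N _ _ _ ad.pos' (hf.mono (by omega : u ≤ u + 1))
  have z2 := M_nonneg (N := N) (fun v hv => (ad.pos v hv).le) (T - u)
  have z3 := M_nonneg (N := N) (fun v hv => (ad.pos' v hv).le) (T - (u + 1))
  have key : M θ N (pot θ φ (ps θ N u) * g) u (T - u) *
        M θ N (sh (pot θ φ (ps θ N u))) (u + 1) (T - (u + 1)) ≤
      M θ N (sh (pot θ φ (ps θ N u)) * sh g) (u + 1) (T - (u + 1)) *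
        M θ N (pot θ φ (ps θ N u)) u (T - u) := by
    refine le_of_mul_le_mul_left ?_ z1
    nlinarith [mul_le_mul_of_nonneg_left a1 z3, mul_le_mul_of_nonneg_left a2 z2]
  rw [Y_mul, Y_mul, Y, Y, ← sh_pot', sh_ps, sh_ps]
  have q := (h.pos _ (ps_top N hu)).le
  nlinarith [mul_le_mul_of_nonneg_left key (mul_nonneg (mul_nonneg q q) (tg.nn (ps θ N u)))]

theorem cross2 {N : ℕ} (gg : GG θ N) {φ : ℝ → ℝ} {b : ℤ} (h : Adm θ (N + 1) φ b) {g : ℝ → ℝ}
    (tg : Tst g) {u : ℤ} (h0 : 0 ≤ u) (hu : u < b) (T : ℤ) :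
    Y θ N (φ * g) u T * Y θ N (sh φ) u T ≤ Y θ N (sh φ * sh g) u T * Y θ N φ u T := by
  by_cases hf : Feas N u (T - u)
  swap
  · rw [Y_eq_zero φ h0 hf, Y_eq_zero _ h0 hf]; simp
  have ad := h.step hu
  have a1 := gg _ _ ad g tg (T - u)
  have a2 := pc_all N _ _ ad.good' ad.pos' (sh g) (kap θ (ps θ N u)) tg.shift (kap_tst _) (T - u)
  have z1 := M_pos N _ _ _ ad.pos' (hf.mono (by omega : u ≤ u + 1))
  rw [sh_pot'] at a1 a2 z1
  rw [M_kap, M_kap'] at a2
  have pχ := pot_pos h.pos' (by omega : u < b + 1)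
  have z2 := M_nonneg (N := N) (fun v hv => (ad.pos v hv).le) (T - u)
  have z3 := M_nonneg (N := N) (fun v hv => (pχ v hv).le) (T - u)
  have z4 := M_nonneg (N := N) (mul_nn pχ tg.shift) (T - u)
  have key : M θ N (pot θ φ (ps θ N u) * g) u (T - u) *
        M θ N (pot θ (sh φ) (ps θ N u)) u (T - u) ≤
      M θ N (pot θ (sh φ) (ps θ N u) * sh g) u (T - u) *
        M θ N (pot θ φ (ps θ N u)) u (T - u) := by
    refine le_of_mul_le_mul_left ?_ z1
    nlinarith [mul_le_mul_of_nonneg_left a1 z3, mul_le_mul_of_nonneg_left a2 z2]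
  rw [Y_mul, Y_mul, Y, Y]
  have s2 : g (ps θ N u) ≤ sh g (ps θ N u) := by
    have := tg.anti (ps θ N u - 1)
    rwa [sub_add_cancel] at this
  have q := mul_nonneg (h.pos _ (ps_top N hu)).le
    (h.pos' _ (ps_top N (by omega : u < b + 1))).le
  nlinarith [mul_le_mul_of_nonneg_left key (mul_nonneg q (tg.nn (ps θ N u))),
    mul_le_mul_of_nonneg_left s2 (mul_nonneg q (mul_nonneg z4 z2))]

theorem gg_all (N : ℕ) : GG θ N := by
  induction N with
  | zero =>
    intro φ b _ g _ T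
    simp only [M_zero]; exact le_rfl
  | succ N ih =>
    intro φ b h g tg T
    simp only [M_succ]
    rw [← sum_shift (fun u => Y θ N (φ * g) u T), ← sum_shift (fun u => Y θ N φ u T)]
    have np : ∀ s, s < b + 1 → 0 ≤ Y θ N (sh φ) s T := fun s hs =>
      Y_nonneg (fun v hv => (h.pos' v hv).le) hs T
    have nq : ∀ s, s < b → 0 ≤ Y θ N φ s T := fun s hs =>
      Y_nonneg (fun v hv => (h.pos v hv).le) hs T
    have na : ∀ s, s < b + 1 → 0 ≤ Y θ N (sh φ * sh g) s T := fun s hs =>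
      Y_nonneg (mul_nn h.pos' tg.shift) hs T
    have nq' : ∀ s, s < b + 1 → 0 ≤ if 1 ≤ s then Y θ N φ (s - 1) T else 0 := fun s hs => by
      split_ifs
      · exact nq _ (by omega)
      · exact le_rfl
    refine cheb _ (fun u => Y θ N (sh φ) u T)
      (fun t => if 1 ≤ t then Y θ N φ (t - 1) T else 0)
      (fun u => Y θ N (sh φ * sh g) u T)
      (fun t => if 1 ≤ t then Y θ N (φ * g) (t - 1) T else 0)
      ?_ ?_ ?_ ?_ ?_ ?_
    · exact fun s hs => np s (Finset.mem_Ico.1 hs).2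
    · exact fun s hs => nq' s (Finset.mem_Ico.1 hs).2
    · exact fun s hs => na s (Finset.mem_Ico.1 hs).2
    · intro s hs hq
      rw [Finset.mem_Ico] at hs
      by_cases h1 : 1 ≤ s
      · simp only [if_pos h1] at hq ⊢
        exact Y_eq_zero _ (by omega) fun hf => (Y_pos h.pos (by omega) hf).ne' hq
      · simp only [if_neg h1]
    · intro s hs t ht hst
      rw [Finset.mem_Ico] at hs ht
      have n0 := mul_nonneg (np s hs.2) (nq' t ht.2)
      by_cases h1 : 1 ≤ s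
      swap
      · simp only [if_neg h1, mul_zero]; exact n0
      by_cases f1 : Feas N (s - 1) (T - (s - 1))
      swap
      · simp only [if_pos h1, Y_eq_zero φ (by omega : 0 ≤ s - 1) f1, mul_zero]; exact n0
      by_cases f2 : Feas N t (T - t)
      swap
      · simp only [Y_eq_zero _ ht.1 f2, zero_mul]; exact n0
      refine chain_ratio (fun r => Y θ N (sh φ) r T)
        (fun t => if 1 ≤ t then Y θ N φ (t - 1) T else 0) s t hst (fun r r1 r2 => ?_)
        (fun r r1 r2 => ?_)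
      · simp only [if_pos (by omega : 1 ≤ r)]
        exact Y_pos h.pos (by omega) (f1.mid f2.2.1 (by omega) (by omega))
      · simp only [if_pos (by omega : 1 ≤ r), if_pos (by omega : 1 ≤ r + 1), add_sub_cancel_right]
        have := top_adj ih h (by omega : 0 ≤ r - 1) (by omega) T
        rwa [sub_add_cancel] at this
    · intro s hs t ht hst
      rw [Finset.mem_Ico] at hs ht
      by_cases h1 : 1 ≤ t
      swap
      · simp only [if_neg h1, mul_zero, zero_mul]; exact le_rfl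
      simp only [if_pos h1]
      obtain ⟨u, rfl⟩ : ∃ u, t = u + 1 := ⟨t - 1, by ring⟩
      rw [add_sub_cancel_right]
      rcases hst.eq_or_lt with rfl | hlt
      · exact cross1 ih h tg (by omega) (by omega) T
      by_cases hf : Feas N u (T - u)
      swap
      · rw [Y_eq_zero φ (by omega) hf, Y_eq_zero _ (by omega) hf]; simp
      have a1 := cross2 ih h tg (by omega : 0 ≤ u) (by omega) T
      have a2 := dec (pc_all N) h.good' h.pos' tg.shift hs.1 (by omega : s ≤ u) (by omega) T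
      have y1 := Y_pos h.pos' (by omega : u < b + 1) hf
      refine le_of_mul_le_mul_left ?_ y1
      nlinarith [mul_le_mul_of_nonneg_left a1 (np s hs.2),
        mul_le_mul_of_nonneg_left a2 (nq u (by omega))]

theorem top_logconcave (N : ℕ) (w T : ℤ) (h0 : 0 ≤ w) :
    Y θ N (fun _ => 1) w T * Y θ N (fun _ => 1) (w + 1 + 1) T ≤
      Y θ N (fun _ => 1) (w + 1) T ^ 2 := by
  have ad : Adm θ (N + 1) (fun _ => 1) (w + 2) :=
    ⟨good_one _ _, good_one _ _, fun _ _ => one_pos, fun _ _ => by simp⟩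
  have := top_adj (gg_all N) ad h0 (by omega) T
  rw [show sh (fun _ => (1 : ℝ)) = fun _ => 1 from rfl] at this
  linarith

end Pool.Agent.Lib.MP_cb200a_pr.Jk
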