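import Pool.Agent.Lib.MP_cb200a_pr.Jk.Ind

set_option autoImplicit false

open Finset

namespace Pool.Agent.Lib.MP_cb200a_pr.Jk

theorem exists_sn (θ c : ℝ) (s : ℝ → ℝ) (hs : ∀ x, s x = if c = 0 then x else Real.sinh (c * x))
    (R : ℝ → ℝ) (hR : ∀ x, R x = s (x + 1) * s (x + θ) / (s x * s (x + 1 - θ))) :
    ∃ S : Sn, R = rr (S := S) θ := by
  rcases lt_trichotomy c 0 with h | h | h
  · refine ⟨snSinh (-c) (by linarith), funext fun x => ?_⟩
    simp only [hR, hs, if_neg h.ne, rr, Sn.s, neg_mul, Real.sinh_neg, mul_neg, neg_neg]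
  · refine ⟨snId, funext fun x => ?_⟩
    simp only [hR, hs, if_pos h, rr, Sn.s]
  · refine ⟨snSinh c h, funext fun x => ?_⟩
    simp only [hR, hs, if_neg h.ne', rr, Sn.s]

variable {θ : ℝ} [hθ : Fact (0 < θ)] [S : Sn]

omit hθ in
theorem psi_add {x : ℝ} (hx : θ ≤ x) (m : ℕ) :
    psi θ (x + m) = psi θ x * ∏ r ∈ range m, rr θ (x + r) := by
  induction m with
  | zero => simp
  | succ m ih =>
    have : (0 : ℝ) ≤ m := Nat.cast_nonneg m
    rw [Finset.prod_range_succ, ← mul_assoc, ← ih, Nat.cast_succ, ← add_assoc,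
      psi_succ (by linarith)]

theorem wt_eq (n : ℕ) : ∃ K : ℝ, ∀ h : Fin n → ℕ, StrictMono h →
    ∏ a, ∏ b ∈ Ioi a, ∏ r ∈ range (h b - h a - (b.val - a.val)),
      rr θ (θ * ((b.val : ℝ) - (a.val : ℝ)) + (r : ℝ)) = K * wt θ fun i => (h i : ℤ) := by
  refine ⟨∏ a : Fin n, ∏ b ∈ Ioi a, (psi θ (θ * ((b.val : ℝ) - (a.val : ℝ))))⁻¹, fun h hh => ?_⟩
  rw [wt, ← Finset.prod_mul_distrib]
  refine Finset.prod_congr rfl fun a _ => ?_
  rw [← Finset.prod_filter, Finset.filter_lt_eq_Ioi, ← Finset.prod_mul_distrib]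
  refine Finset.prod_congr rfl fun b hb => ?_
  have hab : a.val < b.val := Fin.lt_def.1 (Finset.mem_Ioi.1 hb)
  obtain ⟨d, hd⟩ : ∃ d : ℕ, b.val = a.val + (d + 1) := ⟨b.val - a.val - 1, by omega⟩
  have g := gap (h := fun i => (h i : ℤ)) (fun a b hab => Int.ofNat_lt.2 (hh hab)) _ a b hd
  obtain ⟨m, hm⟩ : ∃ m : ℕ, h b = h a + (d + 1) + m := ⟨h b - h a - (d + 1), by omega⟩
  have e1 : h b - h a - (b.val - a.val) = m := by omega
  have x1 : θ ≤ θ * ((b.val : ℝ) - (a.val : ℝ)) := by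
    rw [hd]; push_cast
    nlinarith [mul_nonneg hθ.out.le (Nat.cast_nonneg (α := ℝ) d)]
  have e2 : L θ (fun i => (h i : ℤ)) b - L θ (fun i => (h i : ℤ)) a =
      θ * ((b.val : ℝ) - (a.val : ℝ)) + m := by
    simp only [L, hm, hd]; push_cast; ring
  rw [e1, e2, psi_add x1, inv_mul_cancel_left₀ (psi_pos x1).ne']

end Pool.Agent.Lib.MP_cb200a_pr.Jk
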