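import Pool.Agent.Lib.MP_cb200a_pr.Jk.EP

set_option autoImplicit false

open Finset

namespace Pool.Agent.Lib.MP_cb200a_pr.Jk

variable {θ : ℝ}

/-- Weight with a one-particle potential. -/
noncomputable def W [Sn] (θ : ℝ) {n : ℕ} (φ : ℝ → ℝ) (h : Fin n → ℤ) : ℝ :=
  wt θ h * ∏ i, φ (L θ h i)

/-- Real position of the particle number `N` when its integer coordinate is `u`. -/
noncomputable def ps (θ : ℝ) (N : ℕ) (u : ℤ) : ℝ := (u : ℝ) + (θ - 1) * N

theorem ps_succ (N : ℕ) (u : ℤ) : ps θ N (u + 1) = ps θ N u + 1 := by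
  simp only [ps]; push_cast; ring

theorem ps_mono (N : ℕ) {u v : ℤ} (h : u ≤ v) : ps θ N u ≤ ps θ N v := by
  have : (u : ℝ) ≤ v := by exact_mod_cast h
  simp only [ps]; linarith

theorem ps_top (N : ℕ) {u b : ℤ} (h : u < b) : ps θ N u ≤ ps θ (N + 1) b - θ := by
  have : (u : ℝ) + 1 ≤ b := by exact_mod_cast h
  simp only [ps]; push_cast; linarith

/-- The potential after freezing one more particle at `U`. -/
noncomputable def pot [Sn] (θ : ℝ) (φ : ℝ → ℝ) (U : ℝ) : ℝ → ℝ := fun v => φ v * psi θ (U - v)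

theorem pot_mul [Sn] (φ g : ℝ → ℝ) (U : ℝ) : pot θ (φ * g) U = pot θ φ U * g := by
  funext v; simp only [pot, Pi.mul_apply]; ring

theorem W_mul [Sn] {n : ℕ} (φ g : ℝ → ℝ) (h : Fin n → ℤ) :
    W θ (φ * g) h = W θ φ h * ∏ i, g (L θ h i) := by
  simp only [W, Pi.mul_apply, Finset.prod_mul_distrib, mul_assoc]

/-- Append a top particle. -/
def sn {N : ℕ} (y : Fin N → ℤ) (u : ℤ) : Fin (N + 1) → ℤ := Fin.snoc (α := fun _ => ℤ) y u

@[simp] theorem sn_last {N : ℕ} (y : Fin N → ℤ) (u : ℤ) : sn y u (Fin.last N) = u := by simp [sn]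

@[simp] theorem sn_cast {N : ℕ} (y : Fin N → ℤ) (u : ℤ) (i : Fin N) :
    sn y u i.castSucc = y i := by simp [sn]

@[simp] theorem L_sn_last {N : ℕ} (y : Fin N → ℤ) (u : ℤ) :
    L θ (sn y u) (Fin.last N) = ps θ N u := by simp [L, ps]

@[simp] theorem L_sn_cast {N : ℕ} (y : Fin N → ℤ) (u : ℤ) (i : Fin N) :
    L θ (sn y u) i.castSucc = L θ y i := by simp [L]

theorem W_sn [Sn] {N : ℕ} (φ : ℝ → ℝ) (y : Fin N → ℤ) (u : ℤ) :
    W θ φ (sn y u) = φ (ps θ N u) * W θ (pot θ φ (ps θ N u)) y := by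
  simp only [W, wt, pot, Fin.prod_univ_castSucc, L_sn_last, L_sn_cast,
    Fin.castSucc_lt_castSucc_iff,
    Fin.castSucc_lt_last, if_true, lt_irrefl, if_false, Finset.prod_mul_distrib,
    if_neg (not_lt.2 (Fin.le_last _)), Finset.prod_const_one]
  ring

theorem sm_sn {N : ℕ} (y : Fin N → ℤ) (u : ℤ) :
    StrictMono (sn y u) ↔ StrictMono y ∧ ∀ i, y i < u := by
  constructor
  · intro h
    refine ⟨fun a b hab => ?_, fun i => ?_⟩
    · simpa using h (Fin.castSucc_lt_castSucc_iff.2 hab)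
    · simpa using h (Fin.castSucc_lt_last i)
  · rintro ⟨h1, h2⟩ a b hab
    induction b using Fin.lastCases with
    | last =>
      induction a using Fin.lastCases with
      | last => exact absurd hab (lt_irrefl _)
      | cast a => simpa using h2 a
    | cast b =>
      induction a using Fin.lastCases with
      | last => exact absurd hab (not_lt.2 (Fin.le_last _))
      | cast a => simpa using h1 (Fin.castSucc_lt_castSucc_iff.1 hab)

theorem sn_init {N : ℕ} (h : Fin (N + 1) → ℤ) : sn (Fin.init h) (h (Fin.last N)) = h :=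
  Fin.snoc_init_self h

theorem init_sn {N : ℕ} (y : Fin N → ℤ) (u : ℤ) : Fin.init (sn y u) = y := by
  funext i; simp [Fin.init]

theorem sn_mem {N : ℕ} {D U : Fin (N + 1) → ℤ} {D' U' : Fin N → ℤ} {T v : ℤ}
    (h1 : D (Fin.last N) ≤ v) (h2 : v ≤ U (Fin.last N)) (hD : ∀ i, D' i = D i.castSucc)
    (hU : ∀ i, U' i = min (U i.castSucc) (v - 1)) (y : Fin N → ℤ) :
    sn y v ∈ Box D U T ↔ y ∈ Box D' U' (T - v) := by
  rw [mem_Box, mem_Box, sm_sn, Fin.sum_univ_castSucc, Fin.forall_fin_succ']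
  simp only [sn_last, sn_cast]
  constructor
  · rintro ⟨⟨a1, -⟩, ⟨a2, a3⟩, a4⟩
    refine ⟨fun i => ?_, a2, by omega⟩
    have := a1 i
    have := a3 i
    rw [hD, hU]
    omega
  · rintro ⟨a1, a2, a3⟩
    refine ⟨⟨fun i => ?_, h1, h2⟩, ⟨a2, fun i => ?_⟩, by omega⟩
    · have := a1 i
      rw [hD, hU] at this
      omega
    · have := a1 i
      rw [hD, hU] at this
      omega

theorem fiber {N : ℕ} {D U : Fin (N + 1) → ℤ} {D' U' : Fin N → ℤ} {T v : ℤ}
    (h1 : D (Fin.last N) ≤ v) (h2 : v ≤ U (Fin.last N)) (hD : ∀ i, D' i = D i.castSucc)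
    (hU : ∀ i, U' i = min (U i.castSucc) (v - 1)) (G : (Fin (N + 1) → ℤ) → ℝ) :
    ∑ h ∈ (Box D U T).filter (fun h => h (Fin.last N) = v), G h =
      ∑ y ∈ Box D' U' (T - v), G (sn y v) := by
  refine Finset.sum_nbij' (fun h => Fin.init h) (fun y => sn y v) ?_ ?_ ?_ ?_ ?_
  · intro h hh
    rw [mem_filter] at hh
    rw [← sn_mem h1 h2 hD hU, ← hh.2, sn_init]
    exact hh.1
  · intro y hy
    exact mem_filter.2 ⟨(sn_mem h1 h2 hD hU y).2 hy, sn_last _ _⟩
  · intro h hh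
    rw [← (mem_filter.1 hh).2, sn_init]
  · intro y _
    exact init_sn y v
  · intro h hh
    rw [← (mem_filter.1 hh).2, sn_init]

/-- The potentials for which the size monotonicity holds in every box below `b`. -/
def Good [Sn] (θ : ℝ) (N : ℕ) (φ : ℝ → ℝ) (b : ℤ) : Prop :=
  ∀ (D U : Fin N → ℤ) (T : ℤ) (F F' : (Fin N → ℤ) → ℝ), (∀ i, U i < b) →
    (∀ h ∈ Box D U T, ∀ k, h + e k ∈ Box D U (T + 1) → F h ≤ F' (h + e k)) →
    (∑ h ∈ Box D U T, W θ φ h * F h) * ∑ h ∈ Box D U (T + 1), W θ φ h ≤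
      (∑ h ∈ Box D U (T + 1), W θ φ h * F' h) * ∑ h ∈ Box D U T, W θ φ h

theorem Good.step [Sn] {N : ℕ} {φ : ℝ → ℝ} {b u : ℤ} (hg : Good θ (N + 1) φ b) (hu : u < b)
    (hφ : 0 < φ (ps θ N u)) : Good θ N (pot θ φ (ps θ N u)) u := by
  intro D U T F F' hU hF
  have hU' : ∀ i, U i = min (sn U u i.castSucc) (u - 1) := fun i => by
    have := hU i
    rw [sn_cast]; omega
  have hD' : ∀ i, D i = sn D u i.castSucc := fun i => by rw [sn_cast]
  have key : ∀ (S : ℤ) (G : (Fin (N + 1) → ℤ) → ℝ),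
      ∑ h ∈ Box (sn D u) (sn U u) (S + u), G h = ∑ y ∈ Box D U S, G (sn y u) := by
    intro S G
    have := fiber (T := S + u) (v := u) (by simp) (by simp) hD' hU' G
    rw [add_sub_cancel_right, Finset.filter_true_of_mem] at this
    · exact this
    · intro h hh
      have := (mem_Box.1 hh).1 (Fin.last N)
      simp only [sn_last] at this
      omega
  have := hg (sn D u) (sn U u) (T + u) (fun h => F (Fin.init h)) (fun h => F' (Fin.init h))
    (fun i => by
      induction i using Fin.lastCases with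
      | last => simpa using hu
      | cast i => have := hU i; rw [sn_cast]; omega) ?_
  · rw [show T + u + 1 = T + 1 + u by ring, key, key, key, key] at this
    simp only [W_sn, init_sn, mul_assoc, ← Finset.mul_sum] at this
    have h2 := le_of_mul_le_mul_left this hφ
    refine le_of_mul_le_mul_left ?_ hφ
    linarith
  · intro h hh k hk
    have l1 := (mem_Box.1 hh).1 (Fin.last N)
    have l2 := (mem_Box.1 hk).1 (Fin.last N)
    simp only [sn_last, Pi.add_apply, e] at l1 l2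
    induction k using Fin.lastCases with
    | last => simp only [if_true] at l2; omega
    | cast k =>
      have e1 : Fin.init (h + e k.castSucc) = Fin.init h + e k := by
        funext i; simp [Fin.init, e]
      have hl : h (Fin.last N) = u := by omega
      have hl' : (h + e k.castSucc) (Fin.last N) = u := by
        simp [e, hl, (Fin.castSucc_lt_last k).ne']
      rw [← sn_init h, hl, sn_mem (by simp) (by simp) hD' hU', add_sub_cancel_right] at hh
      rw [← sn_init (h + e k.castSucc), hl', sn_mem (by simp) (by simp) hD' hU', e1,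
        show T + u + 1 - u = T + 1 by ring] at hk
      simp only [e1]
      exact hF _ hh k hk

/-- Partition function of `N` particles in `[0, b)` with sum `T`. -/
noncomputable def M [Sn] (θ : ℝ) (N : ℕ) (φ : ℝ → ℝ) (b T : ℤ) : ℝ :=
  ∑ h ∈ Box (n := N) (fun _ => 0) (fun _ => b - 1) T, W θ φ h

/-- The part of the partition function of `N + 1` particles with top particle at `u`. -/
noncomputable def Y [Sn] (θ : ℝ) (N : ℕ) (φ : ℝ → ℝ) (u T : ℤ) : ℝ :=
  φ (ps θ N u) * M θ N (pot θ φ (ps θ N u)) u (T - u)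

theorem fiber_Y [Sn] {N : ℕ} (φ : ℝ → ℝ) {D : Fin (N + 1) → ℤ} {c T v : ℤ}
    (hD : ∀ i : Fin N, D i.castSucc = 0) (h1 : D (Fin.last N) ≤ v) (h2 : v ≤ c) :
    ∑ h ∈ (Box D (fun _ => c) T).filter (fun h => h (Fin.last N) = v), W θ φ h = Y θ N φ v T := by
  rw [fiber (D' := fun _ => 0) (U' := fun _ => v - 1) h1 h2 (fun i => (hD i).symm)
    (fun i => by omega)]
  simp only [W_sn, Y, M, Finset.mul_sum]

theorem M_succ [Sn] (N : ℕ) (φ : ℝ → ℝ) (b T : ℤ) :
    M θ (N + 1) φ b T = ∑ u ∈ Finset.Ico 0 b, Y θ N φ u T := by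
  unfold M
  rw [← Finset.sum_fiberwise_of_maps_to (g := fun h => h (Fin.last N)) (t := Finset.Ico 0 b)]
  · refine Finset.sum_congr rfl fun u hu => ?_
    rw [Finset.mem_Ico] at hu
    exact fiber_Y φ (fun _ => rfl) hu.1 (by omega)
  · intro h hh
    have := (mem_Box.1 hh).1 (Fin.last N)
    rw [Finset.mem_Ico]
    omega

theorem M_zero [Sn] (φ : ℝ → ℝ) (b T : ℤ) : M θ 0 φ b T = if T = 0 then 1 else 0 := by
  unfold M
  split_ifs with h
  · subst h
    have : Box (n := 0) (fun _ => 0) (fun _ => b - 1) 0 = {fun _ => 0} := by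
      ext y
      simp only [mem_Box, mem_singleton]
      constructor
      · intro _; funext i; exact i.elim0
      · intro _; exact ⟨fun i => i.elim0, fun i => i.elim0, by simp⟩
    rw [this]; simp [W, wt]
  · refine Finset.sum_eq_zero fun y hy => absurd ?_ h
    have := (mem_Box.1 hy).2.2
    simpa using this.symm

theorem M_drop [Sn] {N : ℕ} {φ : ℝ → ℝ} {u : ℤ} (h : φ (ps θ N (u + 1) - θ) = 0) (T : ℤ) :
    M θ N φ (u + 1) T = M θ N φ u T := by
  symm
  refine Finset.sum_subset (fun y hy => ?_) fun y hy hy' => ?_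
  · rw [mem_Box] at hy ⊢
    refine ⟨fun i => ?_, hy.2⟩
    have := hy.1 i
    omega
  · rw [mem_Box] at hy hy'
    have : ∃ i, y i = u := by
      by_contra hc
      push Not at hc
      refine hy' ⟨fun i => ?_, hy.2⟩
      have := hy.1 i
      have := hc i
      omega
    obtain ⟨i, hi⟩ := this
    have hN : i.val + 1 = N := by
      by_contra hc
      have h1 : i.val + 1 < N := by omega
      have h2 : y i < y ⟨i.val + 1, h1⟩ := hy.2.1 (by rw [Fin.lt_def]; simp only; omega)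
      have := hy.1 ⟨i.val + 1, h1⟩
      omega
    have hL : L θ y i = ps θ N (u + 1) - θ := by
      have : (N : ℝ) = (i.val : ℝ) + 1 := by exact_mod_cast hN.symm
      simp only [L, ps, hi, this]; push_cast; ring
    unfold W
    rw [Finset.prod_eq_zero (mem_univ i) (by rw [hL, h]), mul_zero]

/-- Minimal sum of `N` distinct naturals. -/
def tri : ℕ → ℤ
  | 0 => 0
  | N + 1 => tri N + N

/-- Existence of configurations. -/
def Feas (N : ℕ) (b T : ℤ) : Prop := N ≤ b ∧ tri N ≤ T ∧ T ≤ tri N + N * (b - N)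

theorem M_eq_zero [Sn] (N : ℕ) :
    ∀ (φ : ℝ → ℝ) (b T : ℤ), 0 ≤ b → ¬ Feas N b T → M θ N φ b T = 0 := by
  induction N with
  | zero =>
    intro φ b T hb h
    rw [M_zero, if_neg]
    rintro rfl
    exact h ⟨by simpa using hb, by simp [tri], by simp [tri]⟩
  | succ N ih =>
    intro φ b T _ h
    rw [M_succ]
    refine Finset.sum_eq_zero fun u hu => ?_
    rw [Finset.mem_Ico] at hu
    rw [Y, ih _ _ _ hu.1, mul_zero]
    rintro ⟨a1, a2, a3⟩
    refine h ⟨by push_cast; omega, by simp only [tri]; omega, ?_⟩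
    simp only [tri]
    push_cast
    nlinarith [mul_le_mul_of_nonneg_left (show u ≤ b - 1 by omega)
      (show (0 : ℤ) ≤ N + 1 by positivity)]

theorem Feas.mono {N : ℕ} {b b' T : ℤ} (h : Feas N b T) (hb : b ≤ b') : Feas N b' T := by
  obtain ⟨a1, a2, a3⟩ := h
  refine ⟨by omega, a2, ?_⟩
  nlinarith [mul_le_mul_of_nonneg_left hb (show (0 : ℤ) ≤ N by positivity)]

theorem Feas.mid {N : ℕ} {s r t T : ℤ} (h : Feas N s (T - s)) (h' : tri N ≤ T - t) (h1 : s ≤ r)
    (h2 : r ≤ t) : Feas N r (T - r) := by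
  obtain ⟨a1, a2, a3⟩ := h
  refine ⟨by omega, by omega, ?_⟩
  nlinarith [mul_le_mul_of_nonneg_left h1 (show (0 : ℤ) ≤ N by positivity)]

theorem prod_step {n : ℕ} (g : ℝ → ℝ) (h : Fin n → ℤ) (k : Fin n) :
    ∏ i, g (L θ h i) = g (L θ h k) * ∏ i ∈ univ.erase k, g (L θ h i) ∧
      ∏ i, g (L θ (h + e k) i) = g (L θ h k + 1) * ∏ i ∈ univ.erase k, g (L θ h i) := by
  refine ⟨(Finset.mul_prod_erase univ (fun i => g (L θ h i)) (mem_univ k)).symm, ?_⟩
  rw [← Finset.mul_prod_erase univ _ (mem_univ k)]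
  congr 1
  · simp [L_add]
  · exact Finset.prod_congr rfl fun i hi => by simp [L_add, Finset.ne_of_mem_erase hi]

theorem Good.epA [Sn] {N : ℕ} {φ : ℝ → ℝ} {b u : ℤ} (hg : Good θ (N + 1) φ b) (hu : u + 1 < b)
    (T : ℤ) :
    Y θ N φ (u + 1) T * Y θ N φ u (T + 1) ≤ Y θ N φ u T * Y θ N φ (u + 1) (T + 1) := by
  have := hg (sn (fun _ => 0) u) (fun _ => u + 1) T
    (fun h => if h (Fin.last N) = u + 1 then 1 else 0)
    (fun h => if h (Fin.last N) = u + 1 then 1 else 0) (fun _ => hu) ?_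
  · have k1 : ∀ S, ∑ h ∈ Box (sn (fun _ : Fin N => 0) u) (fun _ => u + 1) S,
        W θ φ h * (if h (Fin.last N) = u + 1 then 1 else 0) = Y θ N φ (u + 1) S := by
      intro S
      rw [← fiber_Y φ (D := sn (fun _ => 0) u) (c := u + 1) (by simp) (by simp) le_rfl,
        Finset.sum_filter]
      exact Finset.sum_congr rfl fun h _ => by split_ifs <;> simp
    have k2 : ∀ S, ∑ h ∈ Box (sn (fun _ : Fin N => 0) u) (fun _ => u + 1) S, W θ φ h =
        Y θ N φ (u + 1) S + Y θ N φ u S := by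
      intro S
      rw [← fiber_Y φ (D := sn (fun _ => 0) u) (c := u + 1) (by simp) (by simp) le_rfl,
        ← fiber_Y φ (D := sn (fun _ => 0) u) (c := u + 1) (v := u) (by simp) (by simp) (by omega),
        Finset.sum_filter, Finset.sum_filter, ← Finset.sum_add_distrib]
      refine Finset.sum_congr rfl fun h hh => ?_
      have := (mem_Box.1 hh).1 (Fin.last N)
      simp only [sn_last] at this
      split_ifs <;> first | omega | simp
    rw [k1, k1, k2, k2] at this
    linarith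
  · intro h _ k hk
    have := (mem_Box.1 hk).1 (Fin.last N)
    simp only [Pi.add_apply, e] at this ⊢
    split_ifs at this ⊢ <;> first | omega | simp

variable [hθ : Fact (0 < θ)]

theorem L_le {N : ℕ} {y : Fin N → ℤ} {D : Fin N → ℤ} {b T : ℤ}
    (hy : y ∈ Box D (fun _ => b - 1) T) (i : Fin N) : L θ y i ≤ ps θ N b - θ := by
  obtain ⟨y1, y2, -⟩ := mem_Box.1 hy
  have : StrictMono (sn y b) := (sm_sn y b).2 ⟨y2, fun i => by have := y1 i; omega⟩
  have := L_gap (θ := θ) this (Fin.castSucc_lt_last i)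
  simp only [L_sn_last, L_sn_cast] at this
  linarith

theorem pot_pos [Sn] {N : ℕ} {φ : ℝ → ℝ} {b u : ℤ} (h : ∀ v, v ≤ ps θ (N + 1) b - θ → 0 < φ v)
    (hu : u < b) : ∀ v, v ≤ ps θ N u - θ → 0 < pot θ φ (ps θ N u) v := fun v hv => by
  have h0 := hθ.out
  have := ps_top (θ := θ) N hu
  exact mul_pos (h v (by linarith)) (psi_pos (by linarith))

theorem good_one [Sn] (N : ℕ) (b : ℤ) : Good θ N (fun _ => 1) b := by
  intro D U T F F' _ hF
  simpa [W] using ep (θ := θ) D U T F F' hF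

theorem M_congr [Sn] {N : ℕ} {φ ψ : ℝ → ℝ} {b : ℤ} (h : ∀ v, v ≤ ps θ N b - θ → φ v = ψ v) (T : ℤ) :
    M θ N φ b T = M θ N ψ b T := by
  refine Finset.sum_congr rfl fun y hy => ?_
  unfold W
  congr 1
  exact Finset.prod_congr rfl fun i _ => h _ (L_le hy i)

theorem M_nonneg [Sn] {N : ℕ} {φ : ℝ → ℝ} {b : ℤ} (h : ∀ v, v ≤ ps θ N b - θ → 0 ≤ φ v) (T : ℤ) :
    0 ≤ M θ N φ b T :=
  Finset.sum_nonneg fun _ hy => mul_nonneg (wt_nonneg _)
    (Finset.prod_nonneg fun i _ => h _ (L_le hy i))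

theorem Y_nonneg [Sn] {N : ℕ} {φ : ℝ → ℝ} {b u : ℤ} (h : ∀ v, v ≤ ps θ (N + 1) b - θ → 0 ≤ φ v)
    (hu : u < b) (T : ℤ) : 0 ≤ Y θ N φ u T := by
  have h0 := hθ.out
  have := ps_top (θ := θ) N hu
  exact mul_nonneg (h _ this)
    (M_nonneg (fun v hv => mul_nonneg (h v (by linarith)) (psi_nonneg _)) _)

theorem M_pos [Sn] (N : ℕ) : ∀ (φ : ℝ → ℝ) (b T : ℤ), (∀ v, v ≤ ps θ N b - θ → 0 < φ v) →
    Feas N b T → 0 < M θ N φ b T := by
  induction N with
  | zero =>
    rintro φ b T _ ⟨-, a2, a3⟩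
    rw [M_zero, if_pos]
    · exact one_pos
    · simp only [tri] at a2 a3
      omega
  | succ N ih =>
    rintro φ b T hφ ⟨a1, a2, a3⟩
    simp only [tri] at a2 a3
    push_cast at a1 a2 a3
    rw [M_succ]
    refine Finset.sum_pos'
      (fun u hu => Y_nonneg (fun v hv => (hφ v hv).le) (Finset.mem_Ico.1 hu).2 T)
      ⟨min (b - 1) (T - tri N), Finset.mem_Ico.2 ⟨by omega, by omega⟩, ?_⟩
    have hu : min (b - 1) (T - tri N) < b := by omega
    refine mul_pos (hφ _ (ps_top N hu)) (ih _ _ _ (pot_pos hφ hu) ⟨by omega, by omega, ?_⟩)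
    rcases le_total (b - 1) (T - tri N) with h | h
    · rw [min_eq_left h]; nlinarith
    · rw [min_eq_right h]
      nlinarith [mul_nonneg (show (0 : ℤ) ≤ N by positivity) (show 0 ≤ T - tri N - N by omega)]

theorem Good.ep0 [Sn] {N : ℕ} {φ : ℝ → ℝ} {b : ℤ} (hg : Good θ N φ b) (g : ℝ → ℝ) (α β : ℝ)
    (h0 : ∀ v, v ≤ ps θ N b - θ → 0 ≤ g v)
    (h1 : ∀ v, v + 1 ≤ ps θ N b - θ → α * g v ≤ β * g (v + 1)) (S : ℤ) :
    α * M θ N (φ * g) b S * M θ N φ b (S + 1) ≤ β * M θ N (φ * g) b (S + 1) * M θ N φ b S := by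
  have := hg (fun _ => 0) (fun _ => b - 1) S (fun h => α * ∏ i, g (L θ h i))
    (fun h => β * ∏ i, g (L θ h i)) (fun _ => by simp) ?_
  · simp only [M, W_mul, Finset.mul_sum (a := α), Finset.mul_sum (a := β)]
    convert this using 3 <;> ring
  · intro h hh k hk
    obtain ⟨p1, p2⟩ := prod_step (θ := θ) g h k
    simp only [p1, p2, ← mul_assoc]
    refine mul_le_mul_of_nonneg_right (h1 _ ?_)
      (Finset.prod_nonneg fun i _ => h0 _ (L_le hh i))
    have := L_le (θ := θ) hk k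
    simpa only [L_add, if_true] using this

theorem Good.ep2 [Sn] {N : ℕ} {φ : ℝ → ℝ} {b : ℤ} (hg : Good θ N φ b) (g : ℝ → ℝ)
    (h0 : ∀ v, v ≤ ps θ N b - θ → 0 ≤ g v) (h1 : ∀ v, v + 1 ≤ ps θ N b - θ → g (v + 1) ≤ g v)
    (S : ℤ) :
    M θ N (φ * g) b (S + 1) * M θ N φ b S ≤ M θ N (φ * g) b S * M θ N φ b (S + 1) := by
  have := hg.ep0 g (-1) (-1) h0 (fun v hv => by linarith [h1 v hv]) S
  linarith

end Pool.Agent.Lib.MP_cb200a_pr.Jk
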