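import Pool.Agent.Results.MP_cb200a_pr.Macdonald

set_option autoImplicit false

open Finset

namespace Pool.Agent.Lib.MP_cb200a_pr.Jk

theorem tele (x : ℝ) (hx : 0 < x) (m : ℕ) :
    ∏ r ∈ range m, ((x + r + 1) * (x + r + 1) / ((x + r) * (x + r + 1 - 1))) =
      ((x + m) / x) ^ 2 := by
  induction m with
  | zero => simp [hx.ne']
  | succ m ih =>
    have : 0 < x + m := by positivity
    rw [Finset.prod_range_succ, ih, add_sub_cancel_right]
    push_cast
    field_simp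
    ring

open Classical in
/-- The case `θ = 1`, `c = 0` of the hand-in, written with the squared Vandermonde product. -/
theorem theta_one (n k : ℕ) (hk : 0 < n) (E : Finset (Fin n → ℕ))
    (hE : ∀ h, h ∈ E ↔ StrictMono h ∧ ∑ i, h i = k + n.choose 2)
    (w : (Fin n → ℕ) → ℝ) (hw : ∀ h, w h = (∏ a, ∏ b ∈ Ioi a, ((h b : ℝ) - (h a : ℝ))) ^ 2)
    (p : ℤ → ℝ)
    (hp : ∀ t, p t = (∑ h ∈ E with ((h ⟨n - 1, by omega⟩ : ℕ) : ℤ) = t, w h) / ∑ h ∈ E, w h)
    (j : ℤ) : p (j - 1) * p (j + 1) ≤ p j ^ 2 := by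
  let R : ℝ → ℝ := fun x => (x + 1) * (x + 1) / (x * (x + 1 - 1))
  let K : ℝ := ∏ a : Fin n, ∏ b ∈ Ioi a, ((b.val : ℝ) - (a.val : ℝ)) ^ 2
  have pos : ∀ a : Fin n, ∀ b ∈ Ioi a, 0 < (b.val : ℝ) - (a.val : ℝ) := fun a b hb =>
    sub_pos.2 (by exact_mod_cast (Fin.lt_def.1 (Finset.mem_Ioi.1 hb)))
  have hK : K ≠ 0 := Finset.prod_ne_zero_iff.2 fun a _ => Finset.prod_ne_zero_iff.2 fun b hb =>
    pow_ne_zero 2 (pos a b hb).ne'
  have key : ∀ h ∈ E, w h = K * ∏ a, ∏ b ∈ Ioi a, ∏ r ∈ range (h b - h a - (b.val - a.val)),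
      R (1 * ((b.val : ℝ) - (a.val : ℝ)) + (r : ℝ)) := by
    intro h hh
    rw [hw, ← Finset.prod_pow, ← Finset.prod_mul_distrib]
    refine Finset.prod_congr rfl fun a _ => ?_
    rw [← Finset.prod_pow, ← Finset.prod_mul_distrib]
    refine Finset.prod_congr rfl fun b hb => ?_
    have hab : a.val < b.val := Fin.lt_def.1 (Finset.mem_Ioi.1 hb)
    obtain ⟨d, hd⟩ : ∃ d : ℕ, b.val = a.val + d := ⟨b.val - a.val, by omega⟩
    have g := gap (h := fun i => (h i : ℤ))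
      (fun a b hab => Int.ofNat_lt.2 (((hE h).1 hh).1 hab)) _ a b hd
    obtain ⟨m, hm⟩ : ∃ m : ℕ, h b = h a + d + m := ⟨h b - h a - d, by omega⟩
    have e1 : h b - h a - (b.val - a.val) = m := by omega
    have p0 := pos a b hb
    simp only [R, one_mul, e1]
    rw [tele _ p0, ← mul_pow, mul_div_cancel₀ _ p0.ne', hm, hd]
    push_cast
    ring
  refine Pool.Agent.Results.MP_cb200a_pr.Macdonald.result 1 0 one_pos n k hk E hE
    (fun x => x) (fun x => by simp) R (fun _ => rfl) _ (fun _ => rfl) p (fun t => ?_) j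
  rw [hp, Finset.sum_congr rfl key,
    Finset.sum_congr rfl fun h hh => key h (Finset.mem_filter.1 hh).1, ← Finset.mul_sum,
    ← Finset.mul_sum, mul_div_mul_left _ _ hK]

end Pool.Agent.Lib.MP_cb200a_pr.Jk
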