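import Pool.Agent.Lib.MP_cb200a_pr.Jk.Abs

set_option autoImplicit false

open Finset

namespace Pool.Agent.Lib.MP_cb200a_pr.Jk

/-- The properties shared by the identity and by `x ↦ sinh (c x)`. -/
class Sn where
  s : ℝ → ℝ
  odd : ∀ x, s (-x) = -s x
  mono : StrictMono s
  three : ∀ x y t, s (x + t) * s y - s (y + t) * s x = s t * s (y - x)
  harm : ∀ (n : ℕ) (ε : ℝ), 0 < n → ε ≠ 0 → ∃ C : ℝ, 0 < C ∧ ∀ v : Fin n → ℝ,
    Function.Injective v → ∑ i, ∏ l ∈ univ.erase i, (s (v i + ε - v l) / s (v i - v l)) = C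

open Polynomial in
theorem harmq {ι : Type} [Fintype ι] [DecidableEq ι] (x : ι → ℝ) (hx : Function.Injective x)
    (h0 : ∀ i, x i ≠ 0) (u : ℝ) (hu : u ≠ 1) :
    ∑ i, ∏ l ∈ univ.erase i, ((x i - u * x l) / (x i - x l)) =
      ∑ r ∈ range (Fintype.card ι), u ^ r := by
  have m1 : (∏ l : ι, (X - C (u * x l))).Monic := monic_prod_X_sub_C _ _
  have m2 : (∏ l : ι, (X - C (x l))).Monic := monic_prod_X_sub_C _ _
  have d1 : (∏ l : ι, (X - C (u * x l))).degree = ((#(univ : Finset ι) : ℕ) : WithBot ℕ) := by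
    rw [degree_prod]; simp only [degree_X_sub_C]; simp
  have d2 : (∏ l : ι, (X - C (x l))).degree = ((#(univ : Finset ι) : ℕ) : WithBot ℕ) := by
    rw [degree_prod]; simp only [degree_X_sub_C]; simp
  have hd : ((∏ l : ι, (X - C (u * x l))) - ∏ l : ι, (X - C (x l))).degree <
      ((#(univ : Finset ι) : ℕ) : WithBot ℕ) := by
    rw [← d1]
    exact degree_sub_lt_left (d1.trans d2.symm) m1.ne_zero
      (m1.leadingCoeff.trans m2.leadingCoeff.symm)
  have key := congrArg (eval 0) (Lagrange.eq_interpolate (s := univ) (v := x) hx.injOn hd)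
  rw [Lagrange.interpolate_apply, eval_finsetSum] at key
  simp only [eval_mul, eval_C, eval_sub, eval_prod, eval_X, Lagrange.basis,
    Lagrange.basisDivisor] at key
  have e1 : ∀ i, (∏ l, (x i - u * x l) - ∏ l, (x i - x l)) *
      ∏ l ∈ univ.erase i, (x i - x l)⁻¹ * (0 - x l) =
      (u - 1) * (∏ l, (0 - x l)) * ∏ l ∈ univ.erase i, ((x i - u * x l) / (x i - x l)) := by
    intro i
    rw [Finset.prod_eq_zero (f := fun l => x i - x l) (mem_univ i) (sub_self _), sub_zero,
      ← Finset.mul_prod_erase univ (fun l => x i - u * x l) (mem_univ i),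
      ← Finset.mul_prod_erase univ (fun l => 0 - x l) (mem_univ i)]
    simp only [div_eq_mul_inv, Finset.prod_mul_distrib]
    ring
  have e2 : ∏ l, (0 - u * x l) = u ^ Fintype.card ι * ∏ l, (0 - x l) := by
    rw [← card_univ, ← Finset.prod_const, ← Finset.prod_mul_distrib]
    exact Finset.prod_congr rfl fun l _ => by ring
  simp_rw [e1] at key
  rw [← Finset.mul_sum, e2] at key
  have p0 : ∏ l, (0 - x l) ≠ 0 := Finset.prod_ne_zero_iff.2 fun l _ => by simpa using h0 l
  have g := mul_geom_sum u (Fintype.card ι)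
  apply mul_left_cancel₀ (mul_ne_zero (sub_ne_zero.2 hu) p0)
  rw [← key]
  linear_combination (-∏ l, (0 - x l)) * g

/-- The rational case. -/
@[reducible] def snId : Sn where
  s x := x
  odd _ := rfl
  mono := strictMono_id
  three x y t := by ring
  harm n ε hn hε := ⟨n, by exact_mod_cast hn, fun v hv => by simpa using harm v hv ε hε⟩

theorem sinh_ratio (c a b ε : ℝ) :
    Real.sinh (c * (a + ε - b)) / Real.sinh (c * (a - b)) = Real.exp (c * ε) *
      ((Real.exp (2 * c * a) - Real.exp (-(2 * c * ε)) * Real.exp (2 * c * b)) /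
        (Real.exp (2 * c * a) - Real.exp (2 * c * b))) := by
  have p : Real.exp (-(c * (a + b))) / 2 ≠ 0 := by positivity
  have e1 : Real.sinh (c * (a + ε - b)) = Real.exp (-(c * (a + b))) / 2 * (Real.exp (c * ε) *
      (Real.exp (2 * c * a) - Real.exp (-(2 * c * ε)) * Real.exp (2 * c * b))) := by
    rw [Real.sinh_eq, show c * (a + ε - b) = -(c * (a + b)) + (c * ε + 2 * c * a) by ring,
      show -(-(c * (a + b)) + (c * ε + 2 * c * a)) =
        -(c * (a + b)) + (c * ε + (-(2 * c * ε) + 2 * c * b)) by ring]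
    simp only [Real.exp_add]
    ring
  have e2 : Real.sinh (c * (a - b)) = Real.exp (-(c * (a + b))) / 2 *
      (Real.exp (2 * c * a) - Real.exp (2 * c * b)) := by
    rw [Real.sinh_eq, show c * (a - b) = -(c * (a + b)) + 2 * c * a by ring,
      show -(-(c * (a + b)) + 2 * c * a) = -(c * (a + b)) + 2 * c * b by ring]
    simp only [Real.exp_add]
    ring
  rw [e1, e2, mul_div_mul_left _ _ p, mul_div_assoc]

/-- The hyperbolic case. -/
@[reducible] noncomputable def snSinh (c : ℝ) (hc : 0 < c) : Sn where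
  s x := Real.sinh (c * x)
  odd x := by rw [mul_neg, Real.sinh_neg]
  mono x y h := Real.sinh_strictMono (mul_lt_mul_of_pos_left h hc)
  three x y t := by
    simp only [mul_add, mul_sub, Real.sinh_add, Real.sinh_sub]
    ring
  harm n ε hn hε := by
    refine ⟨Real.exp (c * ε) ^ (n - 1) * ∑ r ∈ range n, Real.exp (-(2 * c * ε)) ^ r,
      mul_pos (by positivity) (Finset.sum_pos (fun _ _ => by positivity)
        (Finset.nonempty_range_iff.2 hn.ne')), fun v hv => ?_⟩
    have := harmq (fun i => Real.exp (2 * c * v i))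
      (fun a b hab => hv (mul_left_cancel₀ (by positivity) (Real.exp_injective hab)))
      (fun i => (Real.exp_pos _).ne') (Real.exp (-(2 * c * ε)))
      (fun h => (neg_ne_zero.2 (mul_ne_zero (by positivity) hε)) (Real.exp_eq_one_iff _ |>.1 h))
    rw [Fintype.card_fin] at this
    rw [← this, Finset.mul_sum]
    refine Finset.sum_congr rfl fun i _ => ?_
    simp only [sinh_ratio]
    rw [Finset.prod_mul_distrib, Finset.prod_const, Finset.card_erase_of_mem (mem_univ i),
      card_univ, Fintype.card_fin]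

variable [S : Sn]

theorem s_zero : S.s 0 = 0 := by
  have := S.odd 0
  rw [neg_zero] at this
  linarith

theorem s_pos {x : ℝ} (h : 0 < x) : 0 < S.s x := s_zero ▸ S.mono h

theorem s_neg {x : ℝ} (h : x < 0) : S.s x < 0 := s_zero ▸ S.mono h

theorem s_nonneg {x : ℝ} (h : 0 ≤ x) : 0 ≤ S.s x := s_zero ▸ S.mono.monotone h

theorem s_nonpos {x : ℝ} (h : x ≤ 0) : S.s x ≤ 0 := s_zero ▸ S.mono.monotone h

theorem s_ne {x : ℝ} (h : x ≠ 0) : S.s x ≠ 0 := fun c => h (S.mono.injective (c.trans s_zero.symm))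

theorem s_frac {x y t : ℝ} (ht : 0 ≤ t) (hxy : y ≤ x) (h : 0 < S.s x * S.s y) :
    S.s (x + t) / S.s x ≤ S.s (y + t) / S.s y ∧ S.s (y - t) / S.s y ≤ S.s (x - t) / S.s x := by
  have a : S.s x ≠ 0 := fun c => by simp [c] at h
  have b : S.s y ≠ 0 := fun c => by simp [c] at h
  have k : 0 ≤ S.s t * S.s (x - y) / (S.s x * S.s y) :=
    div_nonneg (mul_nonneg (s_nonneg ht) (s_nonneg (by linarith))) h.le
  have e1 : S.s (y + t) / S.s y - S.s (x + t) / S.s x = S.s t * S.s (x - y) / (S.s x * S.s y) := by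
    rw [← S.three y x t]; field_simp
  have e2 : S.s (x - t) / S.s x - S.s (y - t) / S.s y = S.s t * S.s (x - y) / (S.s x * S.s y) := by
    have := S.three y x (-t)
    rw [S.odd, ← sub_eq_add_neg, ← sub_eq_add_neg] at this
    rw [show S.s t * S.s (x - y) = S.s (x - t) * S.s y - S.s (y - t) * S.s x by linarith]
    field_simp
  constructor <;> linarith

theorem frac_mono (t p q : ℝ) (ht : 0 ≤ t) (hp : 0 < p) (hpq : p ≤ q) :
    S.s p / S.s (p + t) ≤ S.s q / S.s (q + t) := by
  rw [div_le_div_iff₀ (s_pos (by linarith)) (s_pos (by linarith))]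
  have := S.three p q t
  have := mul_nonneg (s_nonneg ht) (s_nonneg (by linarith : 0 ≤ q - p))
  linarith

theorem frac_tp (t p q : ℝ) (ht : 0 ≤ t) (hp : 0 < p) (hpq : p ≤ q) :
    S.s p / S.s (p + t) * (S.s (q + 1) / S.s (q + 1 + t)) ≤
      S.s (p + 1) / S.s (p + 1 + t) * (S.s q / S.s (q + t)) := by
  rw [div_mul_div_comm, div_mul_div_comm,
    div_le_div_iff₀ (mul_pos (s_pos (by linarith)) (s_pos (by linarith)))
      (mul_pos (s_pos (by linarith)) (s_pos (by linarith)))]
  have a1 := S.three p (p + t) 1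
  have a2 := S.three q (q + t) 1
  rw [add_sub_cancel_left, add_right_comm _ t] at a1 a2
  have k : S.s p * S.s (p + 1 + t) ≤ S.s q * S.s (q + 1 + t) :=
    mul_le_mul (S.mono.monotone hpq) (S.mono.monotone (by linarith)) (s_nonneg (by linarith))
      (s_nonneg (by linarith))
  have := mul_le_mul_of_nonneg_left k (mul_nonneg (s_nonneg zero_le_one) (s_nonneg ht))
  have b1 : S.s (p + 1) * S.s (p + t) = S.s p * S.s (p + 1 + t) + S.s 1 * S.s t := by linarith
  have b2 : S.s (q + 1) * S.s (q + t) = S.s q * S.s (q + 1 + t) + S.s 1 * S.s t := by linarith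
  calc _ = S.s p * S.s (p + 1 + t) * (S.s (q + 1) * S.s (q + t)) := by ring
    _ ≤ S.s q * S.s (q + 1 + t) * (S.s (p + 1) * S.s (p + t)) := by
      rw [b1, b2]; nlinarith
    _ = _ := by ring

end Pool.Agent.Lib.MP_cb200a_pr.Jk
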